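import Mathlib
import Pool.Agent.Lib.Mil.Stmt

/-!
# The well order of type `(2^ℵ₀)⁺`
-/

set_option autoImplicit false

namespace Pool.Agent.Mil

open Cardinal

theorem exists_big : ∃ (I : Type) (_ : LinearOrder I) (_ : WellFoundedLT I), Big I := by
  have hreg : (Order.succ 𝔠).IsRegular := Cardinal.isRegular_succ Cardinal.aleph0_le_continuum
  refine ⟨(Order.succ 𝔠).ord.ToType, inferInstance, inferInstance, ⟨fun a => ?_, fun S hS => ?_⟩⟩
  · exact Order.lt_succ_iff.1 (Cardinal.mk_Iio_toType_ord_lt a)
  · by_contra hcon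
    push Not at hcon
    have hcof : Order.cof (Order.succ 𝔠).ord.ToType ≤ #S := Order.cof_le fun b => hcon b
    rw [Ordinal.cof_toType, hreg.cof_ord] at hcof
    exact absurd (hcof.trans hS) (not_le.2 (Order.lt_succ _))

/-- a well order with this property has the order type `(2^ℵ₀)⁺` -/
theorem Big.card {I : Type} [LinearOrder I] [WellFoundedLT I] (h : Big I) :
    Ordinal.type ((· < ·) : I → I → Prop) = (Order.succ 𝔠).ord := by
  have h1 : Order.succ 𝔠 ≤ #I := by
    by_contra hc
    have h2 : #(Set.univ : Set I) ≤ 𝔠 := by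
      rw [Cardinal.mk_univ]
      exact Order.lt_succ_iff.1 (not_le.1 hc)
    obtain ⟨b, hb⟩ := h.bdd _ h2
    exact absurd (hb b trivial) (lt_irrefl _)
  apply le_antisymm
  · by_contra hc
    rw [not_le] at hc
    obtain ⟨a, ha⟩ := Ordinal.typein_surj ((· < ·) : I → I → Prop) hc
    have h3 := h.small a
    have h4 : #(Set.Iio a) = Order.succ 𝔠 := by
      have h5 : (Ordinal.typein ((· < ·) : I → I → Prop) a).card = #(Set.Iio a) := rfl
      rw [← h5, ha, Cardinal.card_ord]
    rw [h4] at h3
    exact absurd h3 (not_le.2 (Order.lt_succ _))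
  · rw [Cardinal.ord_le]
    exact h1

/-- a well order of type `(2^ℵ₀)⁺` has the required properties -/
theorem big_of_type {I : Type} [LinearOrder I] [WellFoundedLT I]
    (h : Ordinal.type ((· < ·) : I → I → Prop) = (Order.succ 𝔠).ord) : Big I := by
  have hreg : (Order.succ 𝔠).IsRegular := Cardinal.isRegular_succ Cardinal.aleph0_le_continuum
  refine ⟨fun a => ?_, fun S hS => ?_⟩
  · have h1 : Ordinal.typein ((· < ·) : I → I → Prop) a < (Order.succ 𝔠).ord := h ▸ Ordinal.typein_lt_type _ a
    have h2 := Cardinal.lt_ord.1 h1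
    have h5 : (Ordinal.typein ((· < ·) : I → I → Prop) a).card = #(Set.Iio a) := rfl
    rw [h5] at h2
    exact Order.lt_succ_iff.1 h2
  · by_contra hcon
    push Not at hcon
    have hcof : Order.cof I ≤ #S := Order.cof_le fun b => hcon b
    have h3 : Order.cof I = Order.succ 𝔠 := by
      rw [← Ordinal.cof_type, h, hreg.cof_ord]
    rw [h3] at hcof
    exact absurd (hcof.trans hS) (not_le.2 (Order.lt_succ _))

theorem big_iff {I : Type} [LinearOrder I] [WellFoundedLT I] :
    Big I ↔ Ordinal.type ((· < ·) : I → I → Prop) = (Order.succ 𝔠).ord := ⟨Big.card, big_of_type⟩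

/-- under CH the well orders of type `ω₂` have the required properties -/
theorem big_of_CH (hCH : (𝔠 : Cardinal.{0}) = ℵ₁) {I : Type} [LinearOrder I] [WellFoundedLT I]
    (h : Ordinal.type ((· < ·) : I → I → Prop) = Ordinal.omega 2) : Big I := by
  apply big_of_type
  rw [h, hCH, Cardinal.succ_aleph, Cardinal.ord_aleph]
  congr 1
  norm_num

end Pool.Agent.Mil
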