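import Pool.Agent.Lib.Mil.W.Asm
import Pool.Agent.Lib.MP_11349d_lc.P1.RP

/-!
# The dense map into the regular open algebra of the iteration

PROOF. Let `d` be as in `exists_d`, and `D φ = RP.j (d φ)` (`RP.j` : the regular open set generated by a condition). `mono`:
`RP.j_mono`. `ne`: `RP.j_ne_bot`. `dns`: `RP.exists_j_le` gives `p` with `RP.j p ≤ X`, and `d φ ≤ p`. `cpt`: if
`D φ ⊓ D ψ ≠ ⊥` then `RP.j_inf_j_ne_bot` gives `p ≤ d φ, d ψ`, and `d θ ≤ p`, so `θ ≤ φ`, `θ ≤ ψ`.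
-/

set_option autoImplicit false
set_option linter.unusedSectionVars false
set_option linter.unusedVariables false

namespace Pool.Agent.Mil

open Pool.Agent.BPF

theorem exists_D {I : Type} [LinearOrder I] [WellFoundedLT I] (K : Kit I) (P : Itm I) :
    ∃ D : Gam I → RP (P.P ⊤), (∀ φ ψ : Gam I, φ ≤ ψ → D φ ≤ D ψ) ∧ (∀ φ, D φ ≠ ⊥) ∧
      (∀ X : RP (P.P ⊤), X ≠ ⊥ → ∃ φ, D φ ≤ X) ∧
      ∀ φ ψ : Gam I, D φ ⊓ D ψ ≠ ⊥ → ∃ θ : Gam I, θ ≤ φ ∧ θ ≤ ψ := by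
  obtain ⟨d, hd, hdd⟩ := exists_d K P
  refine ⟨fun φ => RP.j (d φ), fun φ ψ h => RP.j_mono ((hd φ ψ).2 h), fun φ => RP.j_ne_bot _, fun X hX => ?_,
    fun φ ψ h => ?_⟩
  · obtain ⟨p, hp⟩ := RP.exists_j_le hX
    obtain ⟨φ, hφ⟩ := hdd p
    exact ⟨φ, (RP.j_mono hφ).trans hp⟩
  · obtain ⟨p, hp1, hp2⟩ := RP.j_inf_j_ne_bot h
    obtain ⟨θ, hθ⟩ := hdd p
    exact ⟨θ, (hd θ φ).1 (hθ.trans hp1), (hd θ ψ).1 (hθ.trans hp2)⟩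

end Pool.Agent.Mil
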