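import Pool.Agent.Lib.Mil.W.Fgm
import Pool.Agent.Lib.Mil.Prop
import Pool.Agent.Lib.Mil.W.RPd

/-!
# The final theorems of part W

`exists_kit`: the fusion order of Lib/Mil satisfies the requirements. `mil_dense`: the monoid `Gam I` is densely embedded in
every countable support iteration of Miller forcing of length `I`.
-/

set_option autoImplicit false
set_option linter.unusedSectionVars false
set_option linter.unusedVariables false

namespace Pool.Agent.Mil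

variable {I : Type} [LinearOrder I] [WellFoundedLT I]

/-- the fusion order -/
noncomputable def kit (I : Type) [LinearOrder I] [WellFoundedLT I] : Kit I where
  Fx := Fix
  mul _ _ _ _ h h' := h.mul h'
  triv _ _ _ h := fun a ha x s _ => h a ha x s
  prop A hA F hF N D hD := prop hA F hF N D hD
  game A hA hm Q F0 hF0 N0 h0 hin hstep := exists_game A hA hm Q F0 hF0 N0 h0 hin hstep

theorem mil_dense (P : Itm I) : ∃ d : Gam I → P.P ⊤,
    (∀ φ ψ : Gam I, d φ ≤ d ψ ↔ φ ≤ ψ) ∧ ∀ p, ∃ φ, d φ ≤ p := exists_d (kit I) P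

theorem mil_dense_RP (P : Itm I) :
    ∃ D : Gam I → Pool.Agent.BPF.RP (P.P ⊤), (∀ φ ψ : Gam I, φ ≤ ψ → D φ ≤ D ψ) ∧ (∀ φ, D φ ≠ ⊥) ∧
      (∀ X : Pool.Agent.BPF.RP (P.P ⊤), X ≠ ⊥ → ∃ φ, D φ ≤ X) ∧
      ∀ φ ψ : Gam I, D φ ⊓ D ψ ≠ ⊥ → ∃ θ : Gam I, θ ≤ φ ∧ θ ≤ ψ := exists_D (kit I) P

end Pool.Agent.Mil
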