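import Pool.Agent.Lib.Mil.W.Def

/-!
# The interpretation exists

PROOF. `nm_full`: if `φ.e c x s = s` for all `x, s` then every `s` belongs to `Tr (φ.e c (χ.mp x))` (with `t = s`), so every `p`
belongs to `nt`: let `q ≤ p`; if some `r' ≤ q` has `r' ≤ dc φ`, then `r = r'` and `χ = 1` (`φ * 1 = φ`); otherwise `r = q` and the
first alternative. Hence `T = MNm.full` satisfies `T.t = nt ..` (both are the constant function `Set.univ`), and the chosen
name is equal to it by `MNm.ext`. `exists_dd`: by well-founded recursion on the stage (`WithTop I` is well ordered) define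
`d a φ` as an element of `P a` with `co a c h (d a φ) = nm P c (d c) φ`, from `P.surj`: the support of the family is contained in
a countable support of `φ` (`Gam.exists_spt`, `Spt.off`, `nm_full`). For the recursion one can use `WellFounded.fix`, or first
prove in general: if `X : W → Type` (`W` well ordered), `R a (f : ∀ c < a, X c) (x : X a) : Prop`, and for all `a`, `f` there is `x`
with `R a f x`, then there is `g : ∀ a, X a` with `R a (fun c _ => g c) (g a)` for all `a` (`WellFounded.fix` and `fix_eq`);
here `X a = Gam I → P.P a`.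
-/

set_option autoImplicit false
set_option linter.unusedSectionVars false
set_option linter.unusedVariables false

namespace Pool.Agent.Mil

variable {I : Type} [LinearOrder I]

theorem nm_full (P : Itm I) (c : I) (dc : Gam I → P.P c) (φ : Gam I) (h : ∀ x s, φ.e c x s = s) :
    nm P c dc φ = MNm.full (P.P c) := by
  have hnt : (MNm.full (P.P c)).t = nt P c dc φ := by
    funext s
    ext p
    refine ⟨fun _ q _ => ?_, fun _ => trivial⟩
    by_cases hq : ∃ r' ≤ q, r' ≤ dc φ
    · obtain ⟨r', h1, h2⟩ := hq
      refine ⟨r', h1, Or.inr ⟨1, fun x => ⟨s, ?_⟩, by rwa [mul_one]⟩⟩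
      rw [h]
    · push Not at hq
      exact ⟨q, le_rfl, Or.inl hq⟩
  have hex : ∃ T : MNm (P.P c), T.t = nt P c dc φ := ⟨_, hnt⟩
  unfold nm
  rw [dif_pos hex]
  exact MNm.ext (hex.choose_spec.trans hnt.symm)

private theorem dd_rec {W : Type} [LT W] [WellFoundedLT W] {X : W → Type}
    (R : ∀ a, (∀ c, c < a → X c) → X a → Prop) (hR : ∀ a f, ∃ x, R a f x) :
    ∃ g : ∀ a, X a, ∀ a, R a (fun c _ => g c) (g a) := by
  choose F hF using hR
  refine ⟨fun a => (wellFounded_lt (α := W)).fix (fun a ih => F a ih) a, fun a => ?_⟩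
  have h := (wellFounded_lt (α := W)).fix_eq (C := X) (fun a ih => F a ih) a
  show R a _ ((wellFounded_lt (α := W)).fix (fun a ih => F a ih) a)
  rw [h]
  exact hF a _

theorem exists_dd [WellFoundedLT I] (P : Itm I) : ∃ d : ∀ a, Gam I → P.P a, IsD P d := by
  obtain ⟨g, hg⟩ := dd_rec (W := WithTop I) (X := fun a => Gam I → P.P a)
    (fun a f x => ∀ (φ : Gam I) (c : I) (h : (c : WithTop I) < a),
      P.co a c h (x φ) = nm P c (f c h) φ) (by
      intro a f
      have h1 : ∀ φ : Gam I, ∃ p : P.P a, ∀ (c : I) (h : (c : WithTop I) < a),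
          P.co a c h p = nm P c (f c h) φ := by
        intro φ
        obtain ⟨C, hC, hS⟩ := φ.exists_spt
        refine P.surj a (fun c h => nm P c (f c h) φ) (hC.mono ?_)
        rintro c ⟨hc, hne⟩
        by_contra hcC
        exact hne (nm_full P c _ φ fun x s => hS.off c hcC x s)
      choose x hx using h1
      exact ⟨x, hx⟩)
  exact ⟨g, ⟨fun a c h φ => hg a φ c h⟩⟩

end Pool.Agent.Mil
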