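import Pool.Agent.Lib.Mil.W.Bas
import Pool.Agent.Lib.Mil.W.Dd

/-!
# The interpretation depends only on the coordinates below the stage

PROOF. `IsD.r`: `P.inj`, `P.co_r`, `hd.co`. `IsD.congr`: well-founded induction on `a`; by `P.inj` and `hd.co` it suffices that
`nm P c (d c) φ = nm P c (d c) ψ` for `c < a`. By induction `d c φ = d c ψ` and `d c (φ * χ) = d c (ψ * χ)` for all `χ` (the
coordinates `b < c` of `φ * χ` are `φ.e b (χ.mp x) (χ.e b x s)`), and `φ.e c = ψ.e c`; so the sets `nt` are equal (`funext`,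
`Set.ext`, rewrite) and `nm` depends only on `nt`. `IsD.rs`: `rs_e_mem` and `congr`.
-/

set_option autoImplicit false
set_option linter.unusedSectionVars false
set_option linter.unusedVariables false

namespace Pool.Agent.Mil

variable {I : Type} [LinearOrder I] {P : Itm I} {d : ∀ a, Gam I → P.P a}

theorem IsD.r (hd : IsD P d) {a b : WithTop I} (h : b ≤ a) (φ : Gam I) : P.r a b h (d a φ) = d b φ := by
  apply P.inj b
  intro c hc
  rw [P.co_r, hd.co, hd.co]

private theorem nm_of_nt {c : I} {dc : Gam I → P.P c} {φ ψ : Gam I} (h : nt P c dc φ = nt P c dc ψ) :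
    nm P c dc φ = nm P c dc ψ := by
  classical
  have key : ∀ X Y : List ℕ → Set (P.P c), X = Y →
      (if h : ∃ T : MNm (P.P c), T.t = X then h.choose else MNm.full (P.P c)) =
      (if h : ∃ T : MNm (P.P c), T.t = Y then h.choose else MNm.full (P.P c)) := by
    rintro X _ rfl
    rfl
  unfold nm
  convert key _ _ h

theorem IsD.congr [WellFoundedLT I] (hd : IsD P d) (a : WithTop I) {φ ψ : Gam I}
    (h : ∀ c ∈ lo a, ∀ x s, φ.e c x s = ψ.e c x s) : d a φ = d a ψ := by
  revert φ ψ h
  induction a using WellFoundedLT.induction with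
  | ind a ih =>
  intro φ ψ h
  apply P.inj a
  intro c hc
  rw [hd.co, hd.co]
  apply nm_of_nt
  have key : ∀ χ : Gam I, d c (φ * χ) = d c (ψ * χ) := by
    intro χ
    refine ih c hc fun b hb x s => ?_
    rw [Gam.mul_e, Gam.mul_e]
    exact h b (lt_trans hb hc) _ _
  have h1 : d c φ = d c ψ := ih c hc fun b hb x s => h b (lt_trans hb hc) x s
  have h2 : ∀ x, φ.e c x = ψ.e c x := fun x => funext fun s => h c hc x s
  funext s
  unfold nt
  simp only [h1, key, h2]

theorem IsD.rs [WellFoundedLT I] (hd : IsD P d) (a : WithTop I) (φ : Gam I) : d a (Gam.rs (lo a) φ) = d a φ :=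
  hd.congr a fun c hc x s => Gam.rs_e_mem φ hc x s

end Pool.Agent.Mil
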