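import Pool.Agent.Lib.Mil.W.Kit
import Pool.Agent.Lib.Mil.W.Dcg

/-!
# The density theorem, limit step

PROOF. Let `b ≤ a`. If `b = a`: `χ = 1`, `P.r_self`. Otherwise `b = ↑b'`, `b' ∈ lo a`. Let `S` be the (countable, `P.ctb`) support of `p`.
CASE 1: there is `c ∈ lo a` with `b' ≤ c` and `S ∩ lo a ⊆ Set.Iio c`. `hw c` for `P.r a c _ p` gives `χ` with `χ.In (lo c)`,
`d c (φ * χ) ≤ P.r a c _ p`; `P.le_of`: at coordinates `c' < c` use `b = c` (`IsD.r`), at the others `co a c' p` is full.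
CASE 2: for all `c ∈ lo a` with `b' ≤ c` there is `c' ∈ S ∩ lo a` with `c ≤ c'`. `S ∩ lo a` is countable and nonempty; let `g : ℕ → I` be an
enumeration of it (`Set.Countable.exists_eq_range`). Define `a' 0 = b'`, `a' (k + 1) = max (a' k) (g k)`: monotone, `a' k ∈ lo a`, and for every
`c' ∈ lo a` there is `k` with `c' < a' k` (take `c'' ∈ lo a` with `max c' b' < c''` (`ha`), and then `g k ≥ c''`).
`K.game` with `A k = lo (a' k)`, `Q k θ : θ.In (lo (a' k)) ∧ d (a' k) (φ * θ) ≤ P.r a (a' k) _ p`, `F0 = F`, `N0 = N`. `Q 0 1` is the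
hypothesis. STEP: `Q k θ`, `F ⊆ lo (a' k)`: apply `hw (a' (k + 1))` with `b = a' k`, the element `φ * θ` (`In (lo (a' k))`) and
`P.r a (a' (k + 1)) _ p` (`P.r_r`): `χ` with `d (a' (k + 1)) (φ * θ * χ) ≤ P.r ..`. The game gives `Θ`, `Θ.In (⋃ k, lo (a' k)) ⊆ lo a`,
`K.Fx F N Θ`, and for every `k`: `Θ = θ * χ`, `Q k θ`, so `d (a' k) (φ * Θ) ≤ d (a' k) (φ * θ) ≤ P.r a (a' k) _ p` (`(hg _ _).mono`).
`P.le_of`: at the coordinate `c'` take `k` with `c' < a' k` (`IsD.r`).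
-/

set_option autoImplicit false
set_option linter.unusedSectionVars false
set_option linter.unusedVariables false

namespace Pool.Agent.Mil

variable {I : Type} [LinearOrder I] [WellFoundedLT I] {P : Itm I} {d : ∀ a, Gam I → P.P a}

theorem ww_lim (K : Kit I) (hd : IsD P d) {a : WithTop I} (ha : ∀ c ∈ lo a, ∃ c' ∈ lo a, c < c')
    (hg : ∀ c ∈ lo a, Good P d (c : WithTop I)) (hw : ∀ c ∈ lo a, WW K P d (c : WithTop I)) : WW K P d a := by
  intro b h φ hφ p hp F N hF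
  rcases eq_or_lt_of_le h with rfl | hlt
  · refine ⟨1, Gam.in_one _, K.triv F N 1 fun _ _ _ _ => rfl, ?_⟩
    rw [mul_one]
    rwa [P.r_self] at hp
  obtain ⟨b', rfl, hb'⟩ := WithTop.lt_iff_exists_coe.1 hlt
  obtain ⟨S, hS⟩ : ∃ S : Set I, S = {c : I | ∃ h : (c : WithTop I) < a, P.co a c h p ≠ MNm.full (P.P c)} :=
    ⟨_, rfl⟩
  have hSc : S.Countable := by
    rw [hS]
    exact P.ctb a p
  have hSa : S ⊆ lo a := by
    rw [hS]
    rintro c ⟨hc, -⟩
    exact hc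
  have hfull : ∀ (c : I) (hc : (c : WithTop I) < a), c ∉ S → P.co a c hc p = MNm.full (P.P c) := by
    intro c hc hcS
    by_contra hne
    rw [hS] at hcS
    exact hcS ⟨hc, hne⟩
  by_cases h1 : ∃ c ∈ lo a, b' ≤ c ∧ ∀ c' ∈ S, c' < c
  · obtain ⟨c, hc, hbc, hSc'⟩ := h1
    have hca : (c : WithTop I) < a := hc
    obtain ⟨χ, hχ, hFx, hχp⟩ := hw c hc (b' : WithTop I) (WithTop.coe_le_coe.2 hbc) φ hφ
      (P.r a c hca.le p) (by rw [P.r_r]; exact hp) F N hF
    refine ⟨χ, hχ.mono (lo_mono hca.le), hFx, P.le_of fun c' hc' => ?_⟩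
    by_cases hcc : c' < c
    · refine Or.inr ⟨c, hca.le, WithTop.coe_lt_coe.2 hcc, ?_⟩
      rw [hd.r]
      exact hχp
    · exact Or.inl (hfull c' hc' fun hS' => hcc (hSc' c' hS'))
  · have h2 : ∀ c ∈ lo a, b' ≤ c → ∃ c' ∈ S, c ≤ c' := by
      intro c hc hbc
      by_contra hcon
      refine h1 ⟨c, hc, hbc, fun c' hc' => ?_⟩
      by_contra hlt'
      exact hcon ⟨c', hc', not_lt.1 hlt'⟩
    obtain ⟨s0, hs0, -⟩ := h2 b' hb' le_rfl
    obtain ⟨g, hg'⟩ := hSc.exists_eq_range ⟨s0, hs0⟩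
    have hgS : ∀ k, g k ∈ S := fun k => hg' ▸ ⟨k, rfl⟩
    obtain ⟨a', ha0, hak⟩ : ∃ a' : ℕ → I, a' 0 = b' ∧ ∀ k, a' (k + 1) = max (a' k) (g k) :=
      ⟨fun k => Nat.rec b' (fun k x => max x (g k)) k, rfl, fun k => rfl⟩
    have haa : ∀ k, (a' k : WithTop I) < a := by
      intro k
      induction k with
      | zero => rw [ha0]; exact hb'
      | succ k ih =>
        rw [hak]
        rcases max_choice (a' k) (g k) with h3 | h3
        · rw [h3]; exact ih
        · rw [h3]; exact hSa (hgS k)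
    have hmono : Monotone a' := monotone_nat_of_le_succ fun k => by
      rw [hak]
      exact le_max_left _ _
    have hmono' : ∀ {k l : ℕ}, k ≤ l → (a' k : WithTop I) ≤ a' l := fun hkl =>
      WithTop.coe_le_coe.2 (hmono hkl)
    have hcof : ∀ c' ∈ lo a, ∃ k, c' < a' k := by
      intro c' hc'
      have h3 : max c' b' ∈ lo a := by
        rcases max_choice c' b' with h4 | h4
        · rw [h4]; exact hc'
        · rw [h4]; exact hb'
      obtain ⟨c'', hc'', h5⟩ := ha _ h3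
      obtain ⟨s1, hs1, h6⟩ := h2 c'' hc'' ((le_max_right _ _).trans h5.le)
      rw [hg'] at hs1
      obtain ⟨k, rfl⟩ := hs1
      refine ⟨k + 1, ?_⟩
      rw [hak]
      exact ((le_max_left _ _).trans_lt h5).trans_le (h6.trans (le_max_right _ _))
    obtain ⟨Θ, hΘ, hΘF, hΘQ⟩ := K.game (fun k => lo (a' k : WithTop I)) (fun k => lo_lower _)
      (fun k l hkl => lo_mono (hmono' hkl))
      (fun k θ => θ.In (lo (a' k : WithTop I)) ∧ d (a' k : WithTop I) (φ * θ) ≤ P.r a (a' k) (haa k).le p)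
      F (by rw [ha0]; exact hF) N ⟨Gam.in_one _, by
        rw [mul_one]
        have h3 : ∀ (c : I) (hc : (c : WithTop I) ≤ a), c = b' → d (c : WithTop I) φ ≤ P.r a c hc p := by
          rintro c hc rfl
          exact hp
        exact h3 _ _ ha0⟩ (fun k θ hQ => hQ.1) (fun k θ F' N' hQ hF' => by
        have hφk : φ.In (lo (a' k : WithTop I)) := hφ.mono (lo_mono (by
          rw [← ha0]
          exact hmono' (Nat.zero_le k)))
        obtain ⟨χ, hχ, hFx, hχp⟩ := hw (a' (k + 1)) (haa (k + 1)) (a' k : WithTop I)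
          (hmono' (Nat.le_succ k)) (φ * θ) (hφk.mul hQ.1) (P.r a (a' (k + 1)) (haa (k + 1)).le p)
          (by rw [P.r_r]; exact hQ.2) F' N' hF'
        refine ⟨χ, hχ, hFx, (hQ.1.mono (lo_mono (hmono' (Nat.le_succ k)))).mul hχ, ?_⟩
        rw [← mul_assoc]
        exact hχp)
    refine ⟨Θ, hΘ.mono (Set.iUnion_subset fun k => lo_mono (haa k).le), hΘF,
      P.le_of fun c' hc' => ?_⟩
    obtain ⟨k, hk⟩ := hcof c' hc'
    refine Or.inr ⟨(a' k : WithTop I), (haa k).le, WithTop.coe_lt_coe.2 hk, ?_⟩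
    rw [hd.r]
    obtain ⟨θ, χ, hQ, rfl⟩ := hΘQ k
    rw [← mul_assoc]
    exact ((hg (a' k) (haa k)).mono _ _).trans hQ.2

end Pool.Agent.Mil
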