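import Pool.Agent.Lib.Mil.W.Nok

/-!
# Monotonicity at the next stage

PROOF. `P.le_iff`; let `c < a`, `p' ≤ P.r a c _ (d a (φ * χ)) = d c (φ * χ)` (`IsD.r`), `p' ∈ (nm P c (d c) (φ * χ)).t s = nt .. (φ * χ) s`
(`hd.co`, `Good.nm_t`). We show `p' ∈ nt P c (d c) φ s`: let `q ≤ p'` and `r ≤ q` as in the definition for `φ * χ`. The first
alternative is impossible, because `r ≤ d c (φ * χ)`. In the second there is `χ'` with `s ∈ Tr ((φ * χ).e c (χ'.mp x))` for all `x`,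
`r ≤ d c (φ * χ * χ')`. Since `(φ * χ).e c y t = φ.e c (χ.mp y) (χ.e c y t)`, `Tr.comp` gives
`s ∈ Tr (φ.e c (χ.mp (χ'.mp x))) = Tr (φ.e c ((χ * χ').mp x))`, so the second alternative for `φ` holds with `χ * χ'` (`mul_assoc`).
-/

set_option autoImplicit false
set_option linter.unusedSectionVars false
set_option linter.unusedVariables false

namespace Pool.Agent.Mil

variable {I : Type} [LinearOrder I] [WellFoundedLT I] {P : Itm I} {d : ∀ a, Gam I → P.P a}

theorem mono_of (hd : IsD P d) (a : WithTop I) (h : ∀ c ∈ lo a, Good P d (c : WithTop I)) (φ χ : Gam I) :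
    d a (φ * χ) ≤ d a φ := by
  rw [P.le_iff]
  intro c hc s p' hp' hs
  rw [hd.r hc.le] at hp'
  rw [hd.co a c hc, (h c hc).nm_t hd] at hs
  rw [hd.co a c hc, (h c hc).nm_t hd]
  intro q hq
  obtain ⟨r, hr, h1⟩ := hs q hq
  rcases h1 with h1 | ⟨χ', h1, h2⟩
  · exact absurd (hr.trans (hq.trans hp')) (h1 r le_rfl)
  · refine ⟨r, hr, Or.inr ⟨χ * χ', fun x => ?_, ?_⟩⟩
    · obtain ⟨t, ht⟩ := h1 x
      rw [Gam.mul_e] at ht
      rw [Gam.mul_mp]
      exact ⟨_, ht⟩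
    · rw [← mul_assoc]
      exact h2

end Pool.Agent.Mil
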