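import Pool.Agent.Lib.Mil.W.DivA

/-!
# Division in the monoid

PROOF of `div_glue`. For `c ∈ B` choose `X c : Gam I` as in `hX`. By `hT` and `divOne` choose for `c ∈ B` and `x` the map
`f c x : List ℕ → List ℕ` with `Stp (f c x)` and `φ.e c x s = ψ.e c ((X c).mp x) (f c x s)`. Define `χ.e c x s = f c x s` for `c ∈ B`,
`= s` otherwise. SUPPORT `C`: for `c ∉ C`, `φ.e c` and `ψ.e c` are trivial, so `f c x s = s`. Locally constant: let `c ∈ B`, `s`,
`x` be given, `t = f c x s`; `y ↦ φ.e c y s` is locally constant on `C ∩ Set.Iio c`, and so is `y ↦ ψ.e c ((X c).mp y) t`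
(`Gam.Spt.lc_comp`, supports `C`); near `x` both are equal to `φ.e c x s`, and then `f c y s = t` because `ψ.e c ((X c).mp y)` is
injective (`Stp.injective`).
COHERENCE: for `c ∈ B` and `b < c`: `rs (Set.Iio b) (X c) = X b`: apply `rs (Set.Iio b)` to `rs (Iio c) φ = rs (Iio c) ψ * X c`
(`Gam.rs_mul`, `Gam.rs_rs`, `Set.Iio_inter_Iio`), compare with `rs (Iio b) φ = rs (Iio b) ψ * X b` and cancel
(`Gam.mul_left_cancel'`). Then for `b < c`: `(X c).e b x s = χ.e b x s`, since `φ.e b x s = (ψ * X c).e b x s =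
ψ.e b ((X c).mp x) ((X c).e b x s)`, where `(X c).mp x` agrees with `(X b).mp x` below `b` (coherence), and `ψ.e b _` is
injective. So `(X c).mp x` and `χ.mp x` agree below `c`, and `(rs B ψ * χ).e c x s = ψ.e c (χ.mp x) (f c x s) =
ψ.e c ((X c).mp x) (f c x s) = φ.e c x s`.
PROOF of `div_gam`. Take a common countable support `C` of `φ`, `ψ` (`Gam.exists_spt`, `Spt.mono`). By well-founded induction on
`c`, `div_glue` with `B = Set.Iio c` gives for all `c ∈ A` some `X` with `X.In (Set.Iio c)`, `X.Spt C`,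
`rs (Iio c) φ = rs (Iio c) ψ * X`. Finally `div_glue` with `B = A` (`Gam.rs_eq`).
-/

set_option autoImplicit false
set_option linter.unusedSectionVars false
set_option linter.unusedVariables false

namespace Pool.Agent.Mil

variable {I : Type} [LinearOrder I] [WellFoundedLT I]

private theorem divB_aux {φ ψ X : Gam I} {C : Set I} (hφ : φ.Spt C) (hψ : ψ.Spt C) (hX : X.Spt C) (c : I)
    (f : Pt I → List ℕ → List ℕ) (hf : ∀ x s, φ.e c x s = ψ.e c (X.mp x) (f x s)) :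
    (c ∉ C → ∀ x s, f x s = s) ∧ ∀ s, LC (C ∩ Set.Iio c) (fun x => f x s) := by
  refine ⟨fun hc x s => ?_, fun s x => ?_⟩
  · have h1 := hf x s
    rw [hφ.off c hc, hψ.off c hc] at h1
    exact h1.symm
  · have h2 : LC (C ∩ Set.Iio c) (fun y => ψ.e c (X.mp y) (f x s)) :=
      hX.lc_comp (hψ.lc c (f x s)) subset_rfl fun a ha b hb => ⟨hb.1, lt_trans hb.2 ha.2⟩
    obtain ⟨F, hF, n, hn⟩ := ((hφ.lc c s).pair h2) x
    refine ⟨F, hF, n, fun y hy => ?_⟩
    have h3 := hn y hy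
    have h4 : φ.e c y s = φ.e c x s := congrArg Prod.fst h3
    have h5 : ψ.e c (X.mp y) (f x s) = ψ.e c (X.mp x) (f x s) := congrArg Prod.snd h3
    apply (ψ.stp c (X.mp y)).injective
    rw [← hf y s, h4, hf x s, h5]

private theorem divB_at {φ ψ X : Gam I} {c b : I} (h : Gam.rs (Set.Iio c) φ = Gam.rs (Set.Iio c) ψ * X) (hb : b < c)
    (x : Pt I) (s : List ℕ) : φ.e b x s = ψ.e b (X.mp x) (X.e b x s) := by
  have h1 := congrFun (congrFun (congrFun (congrArg Gam.e h) b) x) s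
  rw [Gam.rs_e_mem _ (Set.mem_Iio.2 hb), Gam.mul_e, Gam.rs_e_mem _ (Set.mem_Iio.2 hb)] at h1
  exact h1

private theorem divB_spt {φ ψ X : Gam I} {C : Set I} (hφ : φ.Spt C) (hψ : ψ.Spt C) {c : I} (hX : X.In (Set.Iio c))
    (h : Gam.rs (Set.Iio c) φ = Gam.rs (Set.Iio c) ψ * X) : X.Spt C := by
  have key : ∀ b, (b ∉ C → ∀ x s, X.e b x s = s) ∧ ∀ s, LC (C ∩ Set.Iio b) (fun x => X.e b x s) := by
    intro b
    induction b using WellFoundedLT.induction with
    | ind b ih =>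
      by_cases hb : b < c
      · have hY : (Gam.rs (Set.Iio b) X).Spt C := by
          refine ⟨fun a ha x s => ?_, fun a s => ?_⟩
          · by_cases hab : a ∈ Set.Iio b
            · rw [Gam.rs_e_mem _ hab]
              exact (ih a hab).1 ha x s
            · rw [Gam.rs_e_notMem _ hab]
          · by_cases hab : a ∈ Set.Iio b
            · simp only [Gam.rs_e_mem _ hab]
              exact (ih a hab).2 s
            · simp only [Gam.rs_e_notMem _ hab]
              exact LC.const _ _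
        refine divB_aux hφ hψ hY b (X.e b) fun x s => ?_
        rw [divB_at h hb x s]
        apply ψ.congr
        intro b' hb'
        exact (Gam.rs_mp_mem X (Set.mem_Iio.2 hb') x).symm
      · have h1 : ∀ x s, X.e b x s = s := fun x s => hX b hb x s
        refine ⟨fun _ => h1, fun s => ?_⟩
        simp only [h1]
        exact LC.const _ _
  exact ⟨fun a ha => (key a).1 ha, fun a => (key a).2⟩

theorem div_glue {φ ψ : Gam I} {C : Set I} (hφ : φ.Spt C) (hψ : ψ.Spt C) {B : Set I} (hB : IsLowerSet B)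
    (hX : ∀ c ∈ B, ∃ X : Gam I, X.In (Set.Iio c) ∧ X.Spt C ∧
      Gam.rs (Set.Iio c) φ = Gam.rs (Set.Iio c) ψ * X)
    (hT : ∀ c ∈ B, ∀ X : Gam I, X.In (Set.Iio c) → Gam.rs (Set.Iio c) φ = Gam.rs (Set.Iio c) ψ * X →
      ∀ x, Tr (φ.e c x) ⊆ Tr (ψ.e c (X.mp x))) :
    ∃ χ : Gam I, χ.In B ∧ χ.Spt C ∧ Gam.rs B φ = Gam.rs B ψ * χ := by
  classical
  choose! X hX1 hX2 hX3 using hX
  have hf0 : ∀ c x, ∃ f : List ℕ → List ℕ, c ∈ B → (Stp f ∧ ∀ s, φ.e c x s = ψ.e c ((X c).mp x) (f s)) := by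
    intro c x
    by_cases hc : c ∈ B
    · obtain ⟨f, h1, h2⟩ := divOne (φ.stp c x) (ψ.stp c _) (hT c hc (X c) (hX1 c hc) (hX3 c hc) x)
      exact ⟨f, fun _ => ⟨h1, h2⟩⟩
    · exact ⟨fun s => s, fun h => absurd h hc⟩
  choose f hf using hf0
  -- coherence
  have hcoh : ∀ c ∈ B, ∀ b < c, Gam.rs (Set.Iio b) (X c) = X b := by
    intro c hc b hbc
    have hb : b ∈ B := hB hbc.le hc
    have e1 := congrArg (Gam.rs (Set.Iio b)) (hX3 c hc)
    rw [Gam.rs_mul (isLowerSet_Iio b), Gam.rs_rs, Gam.rs_rs, Set.Iio_inter_Iio, min_eq_left hbc.le, hX3 b hb] at e1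
    exact (Gam.mul_left_cancel' _ e1).symm
  have hXf : ∀ c ∈ B, ∀ b < c, ∀ x s, (X c).e b x s = f b x s := by
    intro c hc b hbc x s
    have hb : b ∈ B := hB hbc.le hc
    have h1 : ψ.e b ((X c).mp x) = ψ.e b ((X b).mp x) := by
      refine ψ.congr' b fun b' hb' => ?_
      rw [← hcoh c hc b hbc]
      exact (Gam.rs_mp_mem (X c) (Set.mem_Iio.2 hb') x).symm
    apply (ψ.stp b ((X b).mp x)).injective
    rw [← (hf b x hb).2 s, ← h1, divB_at (hX3 c hc) hbc x s]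
  -- support
  have hsp : ∀ D : Set I, φ.Spt D → ψ.Spt D →
      (∀ a ∉ D, ∀ x s, (if a ∈ B then f a x s else s) = s) ∧
        ∀ a s, LC (D ∩ Set.Iio a) (fun x => if a ∈ B then f a x s else s) := by
    intro D h1 h2
    have h3 : ∀ a ∈ B, (a ∉ D → ∀ x s, f a x s = s) ∧ ∀ s, LC (D ∩ Set.Iio a) (fun x => f a x s) := by
      intro a ha
      exact divB_aux h1 h2 (divB_spt h1 h2 (hX1 a ha) (hX3 a ha)) a (f a) fun x s => (hf a x ha).2 s
    refine ⟨fun a ha x s => ?_, fun a s => ?_⟩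
    · by_cases hB' : a ∈ B
      · rw [if_pos hB']
        exact (h3 a hB').1 ha x s
      · rw [if_neg hB']
    · by_cases hB' : a ∈ B
      · simp only [if_pos hB']
        exact (h3 a hB').2 s
      · simp only [if_neg hB']
        exact LC.const _ _
  obtain ⟨C1, hc1, hC1⟩ := φ.exists_spt
  obtain ⟨C2, hc2, hC2⟩ := ψ.exists_spt
  let χ : Gam I :=
    { e := fun c x s => if c ∈ B then f c x s else s
      stp := fun c x => by
        by_cases hc : c ∈ B
        · simpa only [if_pos hc] using (hf c x hc).1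
        · simpa only [if_neg hc] using stp_id
      sup := by
        obtain ⟨h1, h2⟩ := hsp (C1 ∪ C2) (hC1.mono Set.subset_union_left) (hC2.mono Set.subset_union_right)
        exact ⟨C1 ∪ C2, hc1.union hc2, h1, h2⟩ }
  have hχ : ∀ c ∈ B, ∀ x s, χ.e c x s = f c x s := fun c hc x s => if_pos hc
  have hχ' : ∀ c ∉ B, ∀ x s, χ.e c x s = s := fun c hc x s => if_neg hc
  refine ⟨χ, hχ', ⟨(hsp C hφ hψ).1, (hsp C hφ hψ).2⟩, ?_⟩
  apply Gam.ext
  funext c x s
  by_cases hc : c ∈ B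
  · rw [Gam.rs_e_mem _ hc, Gam.mul_e, Gam.rs_e_mem _ hc, hχ c hc, (hf c x hc).2 s]
    apply ψ.congr
    intro b hb
    have hb' : b ∈ B := hB hb.le hc
    rw [Gam.mp, Gam.mp]
    congr 1
    funext t
    rw [hXf c hc b hb, hχ b hb']
  · rw [Gam.rs_e_notMem _ hc, Gam.mul_e, Gam.rs_e_notMem _ hc, hχ' c hc]

theorem div_gam {A : Set I} (hA : IsLowerSet A) {φ ψ : Gam I} (hφ : φ.In A) (hψ : ψ.In A)
    (hT : ∀ c ∈ A, ∀ X : Gam I, X.In (Set.Iio c) → Gam.rs (Set.Iio c) φ = Gam.rs (Set.Iio c) ψ * X →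
      ∀ x, Tr (φ.e c x) ⊆ Tr (ψ.e c (X.mp x))) :
    ∃ χ : Gam I, χ.In A ∧ φ = ψ * χ := by
  obtain ⟨C1, hc1, hC1⟩ := φ.exists_spt
  obtain ⟨C2, hc2, hC2⟩ := ψ.exists_spt
  have h1 : φ.Spt (C1 ∪ C2) := hC1.mono Set.subset_union_left
  have h2 : ψ.Spt (C1 ∪ C2) := hC2.mono Set.subset_union_right
  have key : ∀ c, c ∈ A → ∃ X : Gam I, X.In (Set.Iio c) ∧ X.Spt (C1 ∪ C2) ∧
      Gam.rs (Set.Iio c) φ = Gam.rs (Set.Iio c) ψ * X := by
    intro c
    induction c using WellFoundedLT.induction with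
    | ind c ih =>
      intro hc
      exact div_glue h1 h2 (isLowerSet_Iio c) (fun b hb => ih b hb (hA (le_of_lt hb) hc))
        fun b hb => hT b (hA (le_of_lt hb) hc)
  obtain ⟨χ, h3, -, h4⟩ := div_glue h1 h2 hA key hT
  rw [Gam.rs_eq hφ, Gam.rs_eq hψ] at h4
  exact ⟨χ, h3, h4⟩

end Pool.Agent.Mil
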