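import Pool.Agent.Lib.Mil.W.TrA

/-!
# Locally constant trees; cylinders

PROOF. `exists_cyl`: from `LC` take `F`, `n` and the configuration `Cfg.of F n x` (`Cfg.of_sp`, `Cfg.mem_of`, `Cfg.ag_of`).
`lc_tr`: by `Tr.iff_bx` the truth value of `s ∈ Tr (φ.e c (χ.mp x))` is determined by the values `φ.e c (χ.mp x) t` for `t` in the
finite set `bx s` (`bx_fin`, `LC.finset`), and `x ↦ φ.e c (χ.mp x) t` is locally constant on the coordinates below `c`:
`Gam.exists_spt` for `φ`, `χ` and `Gam.Spt.lc_comp` (with `D = C ∩ Set.Iio c`, `E = Set.Iio c`).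
`exists_into`: `θ.mp y ∈ Cy w.u` is a locally constant property of `y` (finitely many coordinates `a ∈ sp w.u`, `Gam.Spt.lc_mp`;
the coordinates used are in `A` because `A` is a lower set), so there is a configuration `v` (`exists_cyl`) with
`(θ * v.k).Into w.u` (`v.k.mp y = pre v.u y ∈ Cy v.u`), and `Gam.Into.factor` gives `γ`. If `θ.In A` then at `a ∉ A`:
`(θ * v.k).e a y s = s` (`Cfg.k_in`) and `(w.k * γ).e a y s = w.u a ++ γ.e a y s = γ.e a y s` since `a ∉ sp w.u`.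
-/

set_option autoImplicit false
set_option linter.unusedSectionVars false
set_option linter.unusedVariables false

namespace Pool.Agent.Mil

variable {I : Type} [LinearOrder I]

theorem exists_cyl {β : Type} {C : Set I} {p : Pt I → β} (h : LC C p) (x : Pt I) :
    ∃ w : Cfg I, sp w.u ⊆ C ∧ x ∈ Cy w.u ∧ ∀ y ∈ Cy w.u, p y = p x := by
  obtain ⟨F, hF, n, hn⟩ := h x
  exact ⟨Cfg.of F n x, (Cfg.of_sp F n x).trans hF, Cfg.mem_of F n x, fun y hy => hn y (Cfg.ag_of hy)⟩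

theorem lc_tr (φ χ : Gam I) (c : I) (s : List ℕ) : LC (Set.Iio c) (fun x => s ∈ Tr (φ.e c (χ.mp x))) := by
  obtain ⟨C, -, hC⟩ := φ.exists_spt
  obtain ⟨C', -, hC'⟩ := χ.exists_spt
  have h1 : ∀ t, LC (Set.Iio c) (fun x => φ.e c (χ.mp x) t) := by
    intro t
    refine hC'.lc_comp (hC.lc c t) Set.inter_subset_right ?_
    rintro a ⟨-, ha⟩ b ⟨-, hb⟩
    exact lt_trans hb ha
  intro x
  obtain ⟨F, hF, n, hn⟩ := LC.finset (C := Set.Iio c) (bx_fin s).toFinset (β := fun _ => List ℕ)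
    (fun t x => φ.e c (χ.mp x) t) (fun t _ => h1 t) x
  refine ⟨F, hF, n, fun y hy => ?_⟩
  have h2 := hn y hy
  apply propext
  show s ∈ Tr (φ.e c (χ.mp y)) ↔ s ∈ Tr (φ.e c (χ.mp x))
  rw [Tr.iff_bx (φ.stp c (χ.mp y)), Tr.iff_bx (φ.stp c (χ.mp x))]
  constructor
  · rintro ⟨t, ht, h3⟩
    refine ⟨t, ht, ?_⟩
    rw [← h2 t ((bx_fin s).mem_toFinset.2 ht)]
    exact h3
  · rintro ⟨t, ht, h3⟩
    refine ⟨t, ht, ?_⟩
    rw [h2 t ((bx_fin s).mem_toFinset.2 ht)]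
    exact h3

theorem exists_into (θ : Gam I) (w : Cfg I) {x : Pt I} (h : θ.mp x ∈ Cy w.u) {A : Set I} (hA : IsLowerSet A)
    (hw : sp w.u ⊆ A) : ∃ v : Cfg I, sp v.u ⊆ A ∧ x ∈ Cy v.u ∧
      ∃ γ : Gam I, θ * v.k = w.k * γ ∧ (θ.In A → γ.In A) := by
  obtain ⟨C, -, hC⟩ := θ.exists_spt
  obtain ⟨n, hn⟩ := w.exists_len
  obtain ⟨F, hF, m, hm⟩ := LC.finset (C := A) (w.fin.toFinset ×ˢ Finset.range n) (β := fun _ => ℕ)
    (fun p y => θ.mp y p.1 p.2) (fun p hp => by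
      have h1 : p.1 ∈ A := hw (w.fin.mem_toFinset.1 (Finset.mem_product.1 hp).1)
      refine (hC.lc_mp p.1 p.2).mono ?_
      rintro b (hb | hb)
      · exact hA (le_of_lt hb.2) h1
      · rw [Set.mem_singleton_iff.1 hb]
        exact h1) x
  have hcy : ∀ y ∈ Cy (Cfg.of F m x).u, θ.mp y ∈ Cy w.u := by
    intro y hy
    refine Cfg.mem_cy_of_ag (F := w.fin.toFinset) (n := n) h (by simp) hn ?_
    intro a ha i hi
    exact hm y (Cfg.ag_of hy) (a, i) (Finset.mem_product.2 ⟨ha, Finset.mem_range.2 hi⟩)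
  have hsp : sp (Cfg.of F m x).u ⊆ A := (Cfg.of_sp F m x).trans hF
  have hinto : (θ * (Cfg.of F m x).k).Into w.u := by
    intro z
    rw [Gam.mul_mp, Cfg.k_mp]
    exact hcy _ (pre_mem _ _)
  obtain ⟨γ, hγ⟩ := hinto.factor w.fin.countable
  refine ⟨Cfg.of F m x, hsp, Cfg.mem_of F m x, γ, hγ, ?_⟩
  intro hθ a ha y s
  have h1 : (θ * (Cfg.of F m x).k).e a y s = (kk w.u w.fin.countable * γ).e a y s := by rw [hγ]
  have h2 : (Cfg.of F m x).u a = [] := by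
    by_contra h3
    exact ha (hsp h3)
  have h4 : w.u a = [] := by
    by_contra h3
    exact ha (hw h3)
  rw [Gam.mul_e, Gam.mul_e, hθ a ha, Cfg.k_e, kk_e, h2, h4] at h1
  exact h1.symm

end Pool.Agent.Mil
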