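import Pool.Agent.Lib.Mil.W.Cpt
import Pool.Agent.Lib.Mil.W.TrB

/-!
# The name of the tree of a condition is a name of a superperfect tree

PROOF. Construct `T : MNm (P.P c)` with `T.t = nt P c (d c) φ`; then `nm` is the chosen one, with the same `t`. `down`: clear.
`reg`: for `q ≤ p` take `r ≤ q` with `r ∈ nt`, and then `r' ≤ r` as in the definition for `r`. `root`: `[] ∈ Tr _` always (`Tr.nil`): for
`q ≤ p`: if some `r' ≤ q` is `≤ d c φ` take it with `χ = 1`, otherwise the first alternative. `tree`: `Tr.pfx`.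
`spl`: let `p ∈ nt .. s`, and `r ≤ p` from the definition (`q = p`). FIRST ALTERNATIVE: no `r' ≤ r` is `≤ d c φ`. Then every `q' ≤ r`
belongs to `nt .. v` for every `v` (first alternative again for every smaller condition), so `q = r`, `u = s`, `n = m` work.
SECOND: `r ≤ d c (φ * χ)` and `s ∈ Tr (φ.e c (χ.mp x))` for all `x`. By `Good.below` there is `α` with `d c (φ * χ * α) ≤ r`; replace `χ` by
`χ * α`. Let `z` be any point, `y = χ.mp z`, `s <+: φ.e c y t`, and let `w` be a cylinder of `z` on which `φ.e c (χ.mp _) t` is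
constant, equal to `u` (`exists_cyl`; `x ↦ φ.e c (χ.mp x) t` is locally constant on the coordinates below `c`: `Gam.exists_spt`,
`Gam.Spt.lc_comp`). Let `q = d c (φ * χ * w.k)`. Given `m` and `q' ≤ q`: `Good.below` gives `β` with `d c (φ * χ * w.k * β) ≤ q'`; let
`y' = (χ * w.k * β).mp z`; `φ.e c y' t = u` and by `Stp` (with `k = m`) `u ++ [j m] <+: φ.e c y' (t ++ [m])`, `m ≤ j m`; on a cylinder
`v` of `z` the value `φ.e c ((χ * w.k * β).mp _) (t ++ [m])` is constant; so `r := d c (φ * χ * w.k * β * v.k)` is `≤ q'` (`hg.mono`) and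
in `nt .. (u ++ [j m])` (second alternative with `χ * w.k * β * v.k`, for all smaller conditions).
-/

set_option autoImplicit false
set_option linter.unusedSectionVars false
set_option linter.unusedVariables false

namespace Pool.Agent.Mil

variable {I : Type} [LinearOrder I] [WellFoundedLT I] {P : Itm I} {d : ∀ a, Gam I → P.P a}

omit [WellFoundedLT I] in
private theorem nok_lc (φ χ : Gam I) (c : I) (t : List ℕ) :
    LC (Set.Iio c) (fun x => φ.e c (χ.mp x) t) := by
  obtain ⟨C, -, hC⟩ := φ.exists_spt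
  obtain ⟨C', -, hC'⟩ := χ.exists_spt
  refine hC'.lc_comp (hC.lc c t) Set.inter_subset_right ?_
  rintro a ⟨-, ha⟩ b ⟨-, hb⟩
  exact lt_trans hb ha

theorem Good.nm_t (hd : IsD P d) {c : I} (hg : Good P d c) (φ : Gam I) :
    (nm P c (d c) φ).t = nt P c (d c) φ := by
  have hex : ∃ T : MNm (P.P c), T.t = nt P c (d c) φ := by
    refine ⟨{ t := nt P c (d c) φ, down := ?_, reg := ?_, root := ?_, tree := ?_, spl := ?_ }, rfl⟩
    · intro s p q hqp hp q' hq'
      exact hp q' (hq'.trans hqp)
    · intro s p hp q hq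
      obtain ⟨r, hr, hrn⟩ := hp q hq
      obtain ⟨r', hr', h⟩ := hrn r le_rfl
      exact ⟨r', hr'.trans hr, h⟩
    · intro p q hq
      by_cases h : ∃ r' ≤ q, r' ≤ d c φ
      · obtain ⟨r', h1, h2⟩ := h
        exact ⟨r', h1, Or.inr ⟨1, fun x => Tr.nil _, by rw [mul_one]; exact h2⟩⟩
      · push Not at h
        exact ⟨q, le_rfl, Or.inl h⟩
    · intro s n p hp q hq
      obtain ⟨r, hr, h⟩ := hp q hq
      rcases h with h | ⟨χ, h1, h2⟩
      · exact ⟨r, hr, Or.inl h⟩
      · exact ⟨r, hr, Or.inr ⟨χ, fun x => Tr.pfx (h1 x) (List.prefix_append _ _), h2⟩⟩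
    · intro s p hp
      obtain ⟨r, hr, h⟩ := hp p le_rfl
      rcases h with h | ⟨χ, h1, h2⟩
      · exact ⟨r, hr, s, List.prefix_rfl, fun m q' hq' => ⟨q', le_rfl, m, le_rfl,
          fun q'' hq'' => ⟨q'', le_rfl, Or.inl fun r' hr' => h r' (hr'.trans (hq''.trans hq'))⟩⟩⟩
      · obtain ⟨α, -, hα⟩ := Good.below hd hg (φ * χ) r h2
        have h1' : ∀ x, s ∈ Tr (φ.e c ((χ * α).mp x)) := by
          intro x
          rw [Gam.mul_mp]
          exact h1 _
        obtain ⟨t, ht⟩ := h1' (fun _ _ => 0)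
        obtain ⟨w, hw1, hw2, hw3⟩ := exists_cyl (nok_lc φ (χ * α) c t) (fun _ _ => 0)
        refine ⟨d c (φ * (χ * α) * w.k), ?_, φ.e c ((χ * α).mp (fun _ _ => 0)) t, ht,
          fun m q' hq' => ?_⟩
        · refine (hg.mono _ _).trans (le_trans ?_ hr)
          rw [← mul_assoc]
          exact hα
        · obtain ⟨β, -, hβ⟩ := Good.below hd hg (φ * (χ * α) * w.k) q' hq'
          have e1 : φ.e c ((χ * α * w.k * β).mp (fun _ _ => 0)) t =
              φ.e c ((χ * α).mp (fun _ _ => 0)) t := by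
            have e2 : (χ * α * w.k * β).mp (fun _ _ => 0) =
                (χ * α).mp (w.k.mp (β.mp (fun _ _ => 0))) := by
              rw [Gam.mul_mp, Gam.mul_mp]
            rw [e2]
            exact hw3 _ (by rw [Cfg.k_mp]; exact pre_mem _ _)
          obtain ⟨j, hj, hj1⟩ := φ.stp c ((χ * α * w.k * β).mp (fun _ _ => 0)) t
          obtain ⟨v, hv1, hv2, hv3⟩ := exists_cyl (nok_lc φ (χ * α * w.k * β) c (t ++ [m]))
            (fun _ _ => 0)
          refine ⟨d c (φ * (χ * α) * w.k * β * v.k), (hg.mono _ _).trans hβ, j m, hj.le_apply,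
            fun q'' hq'' => ⟨q'', le_rfl, Or.inr ⟨χ * α * w.k * β * v.k, fun x => ⟨t ++ [m], ?_⟩, ?_⟩⟩⟩
          · have e3 : (χ * α * w.k * β * v.k).mp x = (χ * α * w.k * β).mp (v.k.mp x) := by
              rw [Gam.mul_mp]
            have e4 := hv3 (v.k.mp x) (by rw [Cfg.k_mp]; exact pre_mem _ _)
            have e5 := hj1 m
            rw [e1] at e5
            rw [e3, e4]
            exact e5
          · have e6 : φ * (χ * α * w.k * β * v.k) = φ * (χ * α) * w.k * β * v.k := by
              simp only [mul_assoc]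
            rw [e6]
            exact hq''
  unfold nm
  rw [dif_pos hex]
  exact hex.choose_spec

end Pool.Agent.Mil
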