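import Pool.Agent.Lib.Mil.W.Nt
import Pool.Agent.Lib.Mil.W.Nok
import Pool.Agent.Lib.Mil.W.DivB

/-!
# Division at the next stage

PROOF. `div_gam` with `A = lo a`. Let `c ∈ lo a`, `X.In (Set.Iio c)`, `rs (Iio c) φ = rs (Iio c) ψ * X`, `x0` a point and
`s ∈ Tr (φ.e c x0)`. By `lc_tr` (with `χ = 1`, `Gam.one_mp`) and `exists_cyl` there is `w : Cfg I`, `x0 ∈ Cy w.u`, with
`s ∈ Tr (φ.e c y)` for all `y ∈ Cy w.u`; so `s ∈ Tr (φ.e c (w.k.mp x))` for all `x` (`Cfg.k_mp`, `pre_mem`), and by `nt_of`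
`d c (φ * w.k) ∈ nt P c (d c) φ s = (P.co a c _ (d a φ)).t s` (`hd.co`, `Good.nm_t`). Since `d c (φ * w.k) ≤ d c φ = P.r a c _ (d a φ)`
(`hg.mono`, `IsD.r`), `P.le_iff` gives `d c (φ * w.k) ∈ (P.co a c _ (d a ψ)).t s = nt P c (d c) ψ s`. By `IsD.congr`
`d c (φ * w.k) = d c (ψ * (X * w.k))`: the coordinates `b < c` of `φ * w.k` are those of `rs (Iio c) φ * w.k = rs (Iio c) ψ * X * w.k`.
`Good.of_nt` gives `s ∈ Tr (ψ.e c ((X * w.k).mp x))` for all `x`; take `x = unp w.u x0`: `w.k.mp x = x0` (`pre_unp`).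
-/

set_option autoImplicit false
set_option linter.unusedSectionVars false
set_option linter.unusedVariables false

namespace Pool.Agent.Mil

variable {I : Type} [LinearOrder I] [WellFoundedLT I] {P : Itm I} {d : ∀ a, Gam I → P.P a}

theorem div_of (hd : IsD P d) (a : WithTop I) (h : ∀ c ∈ lo a, Good P d (c : WithTop I)) (φ ψ : Gam I)
    (hφ : φ.In (lo a)) (hψ : ψ.In (lo a)) (hle : d a φ ≤ d a ψ) :
    ∃ χ : Gam I, χ.In (lo a) ∧ φ = ψ * χ := by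
  refine div_gam (lo_lower a) hφ hψ ?_
  intro c hc X hX hXe x0 s hs
  have hca : (c : WithTop I) < a := hc
  have hg := h c hc
  obtain ⟨w, hw1, hw2, hw3⟩ := exists_cyl (lc_tr φ 1 c s) x0
  have h1 : ∀ y ∈ Cy w.u, s ∈ Tr (φ.e c y) := by
    intro y hy
    have h0 := hw3 y hy
    simp only [Gam.one_mp] at h0
    rw [h0]
    exact hs
  have h2 : d c (φ * w.k) ∈ nt P c (d c) φ s :=
    nt_of (fun x => by rw [Cfg.k_mp]; exact h1 _ (pre_mem _ _))
  have h3 : d c (φ * w.k) ∈ (P.co a c hca (d a φ)).t s := by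
    rw [hd.co, hg.nm_t hd]
    exact h2
  have h4 : d c (φ * w.k) ≤ P.r a c hca.le (d a φ) := by
    rw [hd.r]
    exact hg.mono _ _
  have h5 := (P.le_iff a _ _).1 hle c hca s _ h4 h3
  rw [hd.co, hg.nm_t hd] at h5
  have h6 : d c (φ * w.k) = d c (ψ * (X * w.k)) := by
    apply hd.congr
    intro b hb x t
    have hb' : b ∈ Set.Iio c := by rwa [lo_coe] at hb
    have e := congrFun (congrFun (congrFun (congrArg Gam.e hXe) b) (w.k.mp x)) (w.k.e b x t)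
    rw [Gam.rs_e_mem _ hb', Gam.mul_e, Gam.rs_e_mem _ hb'] at e
    rw [Gam.mul_e, Gam.mul_e, Gam.mul_e, Gam.mul_mp]
    exact e
  rw [h6] at h5
  have h7 := hg.of_nt hd ψ (X * w.k) s h5 (unp w.u x0)
  rwa [Gam.mul_mp, Cfg.k_mp, pre_unp hw2] at h7

end Pool.Agent.Mil
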