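import Pool.Agent.Lib.Mil.W.Suc
import Pool.Agent.Lib.Mil.W.Lim
import Pool.Agent.Lib.Mil.W.Mon
import Pool.Agent.Lib.Mil.W.Ref

/-!
# The density theorem

By induction on the stage. `exists_d`: the final theorem of this part.
-/

set_option autoImplicit false
set_option linter.unusedSectionVars false
set_option linter.unusedVariables false

namespace Pool.Agent.Mil

variable {I : Type} [LinearOrder I] [WellFoundedLT I] {P : Itm I} {d : ∀ a, Gam I → P.P a}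

theorem dns_of (K : Kit I) (hd : IsD P d) {a : WithTop I} (hw : WW K P d a) (p : P.P a) :
    ∃ φ : Gam I, φ.In (lo a) ∧ d a φ ≤ p := by
  obtain ⟨b, hb⟩ : ∃ b : WithTop I, ∀ c, b ≤ c :=
    ⟨wellFounded_lt.min Set.univ ⟨a, trivial⟩, fun c => not_lt.1 (WellFounded.not_lt_min _ Set.univ (Set.mem_univ c))⟩
  have h0 : ∀ c, c ∉ lo b := fun c hc => absurd hc (not_lt.2 (hb _))
  obtain ⟨χ, h1, -, h2⟩ := hw b (hb a) 1 (Gam.in_one _) p
    ((P.le_iff _ _ _).2 fun c hc => absurd hc (h0 c)) ∅ 0 (by simp)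
  exact ⟨χ, h1, by rwa [one_mul] at h2⟩

theorem all_good (K : Kit I) (hd : IsD P d) (a : WithTop I) : Good P d a ∧ WW K P d a := by
  induction a using WellFoundedLT.induction with
  | ind a ih =>
    have hg : ∀ c ∈ lo a, Good P d (c : WithTop I) := fun c hc => (ih c hc).1
    have hw : ∀ c ∈ lo a, WW K P d (c : WithTop I) := fun c hc => (ih c hc).2
    have hW : WW K P d a := by
      by_cases h : ∀ c ∈ lo a, ∃ c' ∈ lo a, c < c'
      · exact ww_lim K hd h hg hw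
      · push Not at h
        obtain ⟨c, hc, h⟩ := h
        exact ww_suc K hd hc (fun c' hc' => h c' hc') (hg c hc) (hw c hc)
    exact ⟨⟨mono_of hd a hg, dns_of K hd hW, div_of hd a hg⟩, hW⟩

theorem exists_d (K : Kit I) (P : Itm I) : ∃ d : Gam I → P.P ⊤,
    (∀ φ ψ : Gam I, d φ ≤ d ψ ↔ φ ≤ ψ) ∧ ∀ p, ∃ φ, d φ ≤ p := by
  obtain ⟨d, hd⟩ := exists_dd P
  have hg := (all_good K hd ⊤).1
  have hin : ∀ φ : Gam I, φ.In (lo ⊤) := fun φ a ha => absurd (by rw [lo_top]; trivial) ha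
  refine ⟨d ⊤, fun φ ψ => ⟨fun h => ?_, fun h => ?_⟩, fun p => ?_⟩
  · obtain ⟨χ, -, hχ⟩ := hg.div φ ψ (hin _) (hin _) h
    exact ⟨χ, hχ⟩
  · obtain ⟨χ, rfl⟩ := h
    exact hg.mono _ _
  · obtain ⟨φ, -, h⟩ := hg.dns p
    exact ⟨φ, h⟩

end Pool.Agent.Mil
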