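import Pool.Agent.Lib.Mil.W.Def

/-!
# Restrictions and the order of the iteration

PROOF. `r_self`, `r_r`: `P.inj` and `P.co_r`. `r_mono`: `P.le_iff` for `p ≤ q` gives, at a coordinate `c < b`, the condition
for `P.r a c _ p`; use `P.co_r` and `r_r` (`P.r b c _ (P.r a b _ p) = P.r a c _ p`). `le_of`: `P.le_iff`; at the coordinate `c`:
if `co a c q` is the full name there is nothing to show; otherwise apply `P.le_iff` to `P.r a b _ p ≤ P.r a b _ q` at the
coordinate `c < b`, with `P.co_r` and `r_r`. `le_suc`: `le_of` for the coordinates `c' < c` (with `b = c`), and `h'` for the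
coordinate `c` itself (all coordinates of the stage `a` are `≤ c`): it is simplest to use `P.le_iff` directly and to split
`c' < c` or `c' = c`.
-/

set_option autoImplicit false
set_option linter.unusedSectionVars false
set_option linter.unusedVariables false

namespace Pool.Agent.Mil

variable {I : Type} [LinearOrder I]

theorem mem_lo {a : WithTop I} {c : I} : c ∈ lo a ↔ (c : WithTop I) < a := Iff.rfl

theorem lo_lower (a : WithTop I) : IsLowerSet (lo a) :=
  fun _ _ h hx => lt_of_le_of_lt (WithTop.coe_le_coe.2 h) hx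

theorem lo_mono {a b : WithTop I} (h : b ≤ a) : lo b ⊆ lo a :=
  fun _ hc => lt_of_lt_of_le hc h

theorem lo_coe (c : I) : lo (c : WithTop I) = Set.Iio c := by
  ext x
  exact WithTop.coe_lt_coe

theorem lo_top : lo (⊤ : WithTop I) = Set.univ := by
  ext x
  exact ⟨fun _ => trivial, fun _ => WithTop.coe_lt_top x⟩

namespace Itm
variable (P : Itm I)

theorem r_self (a : WithTop I) (h : a ≤ a) (p : P.P a) : P.r a a h p = p :=
  P.inj a _ _ fun c hc => P.co_r a a h p c hc

theorem r_r {a b c : WithTop I} (h : b ≤ a) (h' : c ≤ b) (p : P.P a) :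
    P.r b c h' (P.r a b h p) = P.r a c (h'.trans h) p :=
  P.inj c _ _ fun d hd => by rw [P.co_r, P.co_r, P.co_r]

theorem r_mono {a b : WithTop I} (h : b ≤ a) {p q : P.P a} (hpq : p ≤ q) : P.r a b h p ≤ P.r a b h q := by
  rw [P.le_iff]
  intro c hc s p' hp' hm
  rw [P.co_r] at hm ⊢
  rw [P.r_r] at hp'
  exact (P.le_iff a p q).1 hpq c (hc.trans_le h) s p' hp' hm

theorem le_of {a : WithTop I} {p q : P.P a} (h : ∀ (c : I) (hc : (c : WithTop I) < a),
    P.co a c hc q = MNm.full (P.P c) ∨ ∃ (b : WithTop I) (hb : b ≤ a), (c : WithTop I) < b ∧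
      P.r a b hb p ≤ P.r a b hb q) : p ≤ q := by
  rw [P.le_iff]
  intro c hc s p' hp' hm
  rcases h c hc with h1 | ⟨b, hb, hcb, hle⟩
  · rw [h1]
    exact trivial
  · have h2 := (P.le_iff b _ _).1 hle c hcb s p' (by rwa [P.r_r]) (by rwa [P.co_r])
    rwa [P.co_r] at h2

theorem le_suc {a : WithTop I} {c : I} (hc : (c : WithTop I) < a) (ha : ∀ c' ∈ lo a, c' ≤ c) {p q : P.P a}
    (h : P.r a c hc.le p ≤ P.r a c hc.le q)
    (h' : ∀ s, ∀ p' ≤ P.r a c hc.le p, p' ∈ (P.co a c hc p).t s → p' ∈ (P.co a c hc q).t s) : p ≤ q := by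
  rw [P.le_iff]
  intro c' hc' s p' hp' hm
  rcases (ha c' hc').lt_or_eq with h1 | h1
  · have h2 := (P.le_iff c _ _).1 h c' (WithTop.coe_lt_coe.2 h1) s p' (by rwa [P.r_r])
      (by rwa [P.co_r])
    rwa [P.co_r] at h2
  · subst h1
    exact h' s p' hp' hm

end Itm

end Pool.Agent.Mil
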