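import Pool.Agent.Lib.Mil.W.Dcg

/-!
# Common extensions

PROOF. Let `C = lo c = Set.Iio c`. `hg.dns` gives `θ` with `θ.In C`, `d c θ ≤ p`. By `IsD.rs` and `Gam.rs_mul`,
`d c (φ * χ) = d c (rs C φ * rs C χ)`, and `rs C φ * rs C χ` is `In C` (`Gam.in_rs`, `Gam.In.mul`). `hg.div` gives `α`, `β` (both
`In C`) with `θ = rs C φ * rs C χ * α = rs C φ * rs C χ' * β`. By left cancellation (`Gam.mul_left_cancel'`)
`rs C χ * α = rs C χ' * β`, and `rs C (χ * α) = rs C χ * rs C α = rs C χ * α` (`Gam.rs_eq`). Moreover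
`d c (φ * χ * α) = d c (rs C (φ * χ * α)) = d c θ ≤ p`. `cpt_mp`: evaluate `rs C (χ * α) = rs C (χ' * β)` at `x`
(`Gam.rs_mp_mem`). `below`: `cpt` with `χ = χ'`.
-/

set_option autoImplicit false
set_option linter.unusedSectionVars false
set_option linter.unusedVariables false

namespace Pool.Agent.Mil

variable {I : Type} [LinearOrder I] [WellFoundedLT I] {P : Itm I} {d : ∀ a, Gam I → P.P a}

theorem Good.cpt (hd : IsD P d) {c : I} (hg : Good P d c) (φ χ χ' : Gam I) (p : P.P c) (h : p ≤ d c (φ * χ))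
    (h' : p ≤ d c (φ * χ')) : ∃ α β : Gam I, α.In (Set.Iio c) ∧ β.In (Set.Iio c) ∧
      Gam.rs (Set.Iio c) (χ * α) = Gam.rs (Set.Iio c) (χ' * β) ∧ d c (φ * χ * α) ≤ p := by
  have hA : IsLowerSet (lo (c : WithTop I)) := lo_lower _
  obtain ⟨θ, hθ, hθp⟩ := hg.dns p
  have key : ∀ χ : Gam I, p ≤ d c (φ * χ) → ∃ α : Gam I, α.In (lo (c : WithTop I)) ∧
      θ = Gam.rs (lo (c : WithTop I)) φ * (Gam.rs (lo (c : WithTop I)) χ * α) := by
    intro χ h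
    have e1 : d c (φ * χ) = d c (Gam.rs (lo (c : WithTop I)) φ * Gam.rs (lo (c : WithTop I)) χ) := by
      rw [← Gam.rs_mul hA, hd.rs]
    rw [e1] at h
    obtain ⟨α, hα, e2⟩ := hg.div θ _ hθ ((Gam.in_rs _ φ).mul (Gam.in_rs _ χ)) (hθp.trans h)
    exact ⟨α, hα, by rw [← mul_assoc]; exact e2⟩
  obtain ⟨α, hα, eα⟩ := key χ h
  obtain ⟨β, hβ, eβ⟩ := key χ' h'
  have e3 : Gam.rs (lo (c : WithTop I)) χ * α = Gam.rs (lo (c : WithTop I)) χ' * β :=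
    Gam.mul_left_cancel' (Gam.rs (lo (c : WithTop I)) φ) (eα.symm.trans eβ)
  have e4 : Gam.rs (lo (c : WithTop I)) (χ * α) = Gam.rs (lo (c : WithTop I)) (χ' * β) := by
    rw [Gam.rs_mul hA, Gam.rs_mul hA, Gam.rs_eq hα, Gam.rs_eq hβ, e3]
  refine ⟨α, β, ?_, ?_, ?_, ?_⟩
  · rw [← lo_coe]
    exact hα
  · rw [← lo_coe]
    exact hβ
  · rw [← lo_coe]
    exact e4
  · rw [← hd.rs, Gam.rs_mul hA, Gam.rs_mul hA, Gam.rs_eq hα, mul_assoc, ← eα]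
    exact hθp

omit [WellFoundedLT I] in
theorem cpt_mp {c : I} {χ χ' α β : Gam I} (h : Gam.rs (Set.Iio c) (χ * α) = Gam.rs (Set.Iio c) (χ' * β))
    (x : Pt I) (b : I) (hb : b < c) : χ.mp (α.mp x) b = χ'.mp (β.mp x) b := by
  have h1 : (Gam.rs (Set.Iio c) (χ * α)).mp x b = (Gam.rs (Set.Iio c) (χ' * β)).mp x b := by rw [h]
  rw [Gam.rs_mp_mem _ (Set.mem_Iio.2 hb), Gam.rs_mp_mem _ (Set.mem_Iio.2 hb), Gam.mul_mp, Gam.mul_mp] at h1
  exact h1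

theorem Good.below (hd : IsD P d) {c : I} (hg : Good P d c) (φ : Gam I) (p : P.P c) (h : p ≤ d c φ) :
    ∃ α : Gam I, α.In (Set.Iio c) ∧ d c (φ * α) ≤ p := by
  obtain ⟨α, β, hα, -, -, h1⟩ := hg.cpt hd φ 1 1 p (by rw [mul_one]; exact h) (by rw [mul_one]; exact h)
  rw [mul_one] at h1
  exact ⟨α, hα, h1⟩

end Pool.Agent.Mil
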