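import Mathlib
import Pool.Agent.Lib.Mil.Stmt

/-!
# The countable support iteration of Miller forcing

A condition of Miller forcing is a superperfect tree: a nonempty set of finite sequences of natural numbers, closed
under initial segments, such that every element has an extension in it with infinitely many immediate successors in it.
The stronger condition is the smaller tree.

`MNm P` : the names, with respect to the forcing notion `P`, of superperfect trees; such a name is given by its forcing
relation, `t s = {p | p forces s ∈ T}`.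

`Itm I` : an iteration with countable supports of Miller forcing whose length is the order type of `I`: `P a` is the
forcing notion of the stage `a`; a condition `p` of `P a` is a family `(co c p)_{c < a}`, where `co c p` is a `P c`-name
of a superperfect tree, for all but countably many `c` the name of the full tree; `p ≤ q` iff, for all `c < a`, the
restriction of `p` to `c` forces `co c p ⊆ co c q`.
-/

set_option autoImplicit false

namespace Pool.Agent.Mil

/-- a name of a superperfect tree, given by its forcing relation -/
@[ext]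
structure MNm (P : Type) [Preorder P] : Type where
  /-- `t s` is the set of the conditions which force that `s` belongs to the tree -/
  t : List ℕ → Set P
  down : ∀ s p q, q ≤ p → p ∈ t s → q ∈ t s
  reg : ∀ s p, (∀ q ≤ p, ∃ r ≤ q, r ∈ t s) → p ∈ t s
  root : ∀ p, p ∈ t []
  tree : ∀ s n p, p ∈ t (s ++ [n]) → p ∈ t s
  /-- every node `s` has an extension `u` with infinitely many immediate successors -/
  spl : ∀ s p, p ∈ t s → ∃ q ≤ p, ∃ u, s <+: u ∧ ∀ m, ∀ q' ≤ q, ∃ r ≤ q', ∃ n ≥ m, r ∈ t (u ++ [n])

/-- the name of the tree of all finite sequences -/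
def MNm.full (P : Type) [Preorder P] : MNm P where
  t _ := Set.univ
  down _ _ _ _ _ := trivial
  reg _ _ _ := trivial
  root _ := trivial
  tree _ _ _ _ := trivial
  spl s p _ := ⟨p, le_rfl, s, List.prefix_rfl, fun m q' _ => ⟨q', le_rfl, m, le_rfl, trivial⟩⟩

/-- the countable support iteration of Miller forcing, of length the order type of `I` -/
structure Itm (I : Type) [LinearOrder I] : Type 1 where
  /-- the forcing notion of the stage `a` -/
  P : WithTop I → Type
  [ord : ∀ a, Preorder (P a)]
  /-- the coordinate `c` -/
  co : ∀ (a : WithTop I) (c : I), (c : WithTop I) < a → P a → MNm (P c)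
  /-- the restriction -/
  r : ∀ a b : WithTop I, b ≤ a → P a → P b
  co_r : ∀ (a b : WithTop I) (h : b ≤ a) (p : P a) (c : I) (hc : (c : WithTop I) < b),
    co b c hc (r a b h p) = co a c (hc.trans_le h) p
  /-- a condition is determined by its coordinates -/
  inj : ∀ (a : WithTop I) (p q : P a), (∀ (c : I) (h : (c : WithTop I) < a), co a c h p = co a c h q) → p = q
  /-- the support is countable -/
  ctb : ∀ (a : WithTop I) (p : P a), {c : I | ∃ h : (c : WithTop I) < a, co a c h p ≠ MNm.full (P c)}.Countable
  /-- all families of names with countable support are conditions -/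
  surj : ∀ (a : WithTop I) (f : ∀ c : I, (c : WithTop I) < a → MNm (P c)),
    {c : I | ∃ h : (c : WithTop I) < a, f c h ≠ MNm.full (P c)}.Countable → ∃ p : P a, ∀ c h, co a c h p = f c h
  le_iff : ∀ (a : WithTop I) (p q : P a), p ≤ q ↔ ∀ (c : I) (h : (c : WithTop I) < a) (s : List ℕ),
    ∀ p' ≤ r a c h.le p, p' ∈ (co a c h p).t s → p' ∈ (co a c h q).t s

attribute [instance] Itm.ord

/-- the coordinates below the stage `a` -/
def lo {I : Type} [LinearOrder I] (a : WithTop I) : Set I := {c | (c : WithTop I) < a}

/-- the tree of a map -/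
def Tr (g : List ℕ → List ℕ) : Set (List ℕ) := {s | ∃ t, s <+: g t}

section
variable {I : Type} [LinearOrder I]

/-- the forcing relation of the tree of `φ` at the coordinate `c`; `dc` interprets the elements of `Gam I` in `P c` -/
def nt (P : Itm I) (c : I) (dc : Gam I → P.P c) (φ : Gam I) (s : List ℕ) : Set (P.P c) :=
  {p | ∀ q ≤ p, ∃ r ≤ q, (∀ r' ≤ r, ¬ r' ≤ dc φ) ∨
    ∃ χ : Gam I, (∀ x, s ∈ Tr (φ.e c (χ.mp x))) ∧ r ≤ dc (φ * χ)}

open Classical in
/-- the name of the tree of `φ` at the coordinate `c` -/
noncomputable def nm (P : Itm I) (c : I) (dc : Gam I → P.P c) (φ : Gam I) : MNm (P.P c) :=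
  if h : ∃ T : MNm (P.P c), T.t = nt P c dc φ then h.choose else MNm.full (P.P c)

/-- `d a` interprets the elements of `Gam I` in `P a` -/
structure IsD (P : Itm I) (d : ∀ a, Gam I → P.P a) : Prop where
  co : ∀ (a : WithTop I) (c : I) (h : (c : WithTop I) < a) (φ : Gam I), P.co a c h (d a φ) = nm P c (d c) φ

/-- the properties of `d a` which are proved by induction -/
structure Good (P : Itm I) (d : ∀ a, Gam I → P.P a) (a : WithTop I) : Prop where
  mono : ∀ φ χ : Gam I, d a (φ * χ) ≤ d a φ
  dns : ∀ p : P.P a, ∃ φ : Gam I, φ.In (lo a) ∧ d a φ ≤ p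
  div : ∀ φ ψ : Gam I, φ.In (lo a) → ψ.In (lo a) → d a φ ≤ d a ψ → ∃ χ : Gam I, χ.In (lo a) ∧ φ = ψ * χ

end

end Pool.Agent.Mil
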