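import Pool.Agent.Lib.Mil.W.TrA

/-!
# Division of tree maps, one coordinate

PROOF. By `Tr.range_iff`, `g s` has infinitely many successors in `Tr g ⊆ Tr g'`, so `g s = g' t` for some `t`; choose `f s = t`.
`Stp f`: let `s` be given, `j` for `g` at `s`, `j'` for `g'` at `f s`. For every `k`: `g' (f s) ++ [j k] = g s ++ [j k] <+: g (s ++ [k]) =
g' (f (s ++ [k]))`. So `f s <+: f (s ++ [k])` (`Stp.prefix_iff`) and they are not equal (lengths), so
`f s ++ [i k] <+: f (s ++ [k])` for some `i k`, and `g' (f s) ++ [j' (i k)] <+: g' (f s ++ [i k]) <+: g' (f (s ++ [k]))`. Two initial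
segments of the same length are equal: `j' (i k) = j k`. Since `j`, `j'` are strictly monotone, so is `i`
(`StrictMono.lt_iff_lt`).
-/

set_option autoImplicit false
set_option linter.unusedSectionVars false
set_option linter.unusedVariables false

namespace Pool.Agent.Mil

theorem divOne {g g' : List ℕ → List ℕ} (h : Stp g) (h' : Stp g') (hT : Tr g ⊆ Tr g') :
    ∃ f : List ℕ → List ℕ, Stp f ∧ ∀ s, g s = g' (f s) := by
  have h1 : ∀ s, ∃ t, g' t = g s := by
    intro s
    rw [Tr.range_iff h']
    intro m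
    obtain ⟨j, hj, hj1⟩ := h s
    exact ⟨j m, hj.le_apply, hT ⟨s ++ [m], hj1 m⟩⟩
  choose f hf using h1
  refine ⟨f, fun s => ?_, fun s => (hf s).symm⟩
  obtain ⟨j, hj, hj1⟩ := h s
  obtain ⟨j', hj', hj1'⟩ := h' (f s)
  have h2 : ∀ k, ∃ i, f s ++ [i] <+: f (s ++ [k]) ∧ j' i = j k := by
    intro k
    have e1 : g' (f s) ++ [j k] <+: g' (f (s ++ [k])) := by
      rw [hf, hf]
      exact hj1 k
    have e2 : f s <+: f (s ++ [k]) := h'.prefix_iff.1 ((List.prefix_append _ _).trans e1)
    obtain ⟨r, hr⟩ := e2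
    cases r with
    | nil =>
      rw [List.append_nil] at hr
      rw [← hr] at e1
      have := e1.length_le
      simp at this
    | cons i r =>
      have e3 : f s ++ [i] <+: f (s ++ [k]) := ⟨r, by rw [← hr]; simp⟩
      refine ⟨i, e3, ?_⟩
      have e4 : g' (f s) ++ [j' i] <+: g' (f (s ++ [k])) := (hj1' i).trans (h'.mono e3)
      have e5 : g' (f s) ++ [j' i] = g' (f s) ++ [j k] := by
        rcases List.prefix_or_prefix_of_prefix e4 e1 with h3 | h3
        · exact h3.eq_of_length (by simp)
        · exact (h3.eq_of_length (by simp)).symm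
      simpa using e5
  choose i hi hi' using h2
  refine ⟨i, fun k l hkl => ?_, hi⟩
  rw [← hj'.lt_iff_lt, hi', hi']
  exact hj hkl

end Pool.Agent.Mil
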