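import Mathlib

/-!
# A strong limit cardinal of large cofinality

PROOF. Let `μ = max #I ℵ₀`, `ℓ = Order.succ μ` (regular: `Cardinal.isRegular_succ`), `o = ℓ.ord`, `κ = ℶ_ o`, `K = κ.out`. `κ` is a
strong limit (`Cardinal.isStrongLimit_beth`, `o` is a limit ordinal), uncountable. `#I < κ`: `#I < ℓ = o.card ≤ ℶ_ o`
(for example by `Ordinal` induction `o.card ≤ ℶ_ o`; there may be a lemma such as `Cardinal.card_le_beth` or use `aleph_le_beth`
and `Ordinal.le_..`). Let `f i < κ` for all `i`. Since `κ = ⨆ a < o, ℶ_ a` (`Cardinal.beth_limit`) there are `a i < o` with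
`f i ≤ ℶ_ (a i)`; since `o.cof = ℓ > #I` there is `b < o` with `a i ≤ b` for all `i` (`Ordinal.iSup_lt_ord` or `Ordinal.lsub_lt_ord`,
`Cardinal.IsRegular.cof_ord`). So `Cardinal.sum f ≤ #I * ℶ_ b < κ` (`Cardinal.sum_le_sum`, `Cardinal.sum_const`, `Cardinal.mul_lt_of_lt`,
`Cardinal.beth_lt`).
-/

set_option autoImplicit false
set_option linter.unusedSectionVars false
set_option linter.unusedVariables false

namespace Pool.Agent.Mil

open Cardinal

theorem exists_K (I : Type) : ∃ K : Type, Nonempty K ∧ ℵ₀ < #K ∧ (∀ x < #K, (2 : Cardinal.{0}) ^ x < #K) ∧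
    ∀ f : I → Cardinal.{0}, (∀ i, f i < #K) → Cardinal.sum f < #K := by
  set μ : Cardinal.{0} := max #I ℵ₀ with hμ
  have hμ0 : ℵ₀ ≤ μ := le_max_right _ _
  set l : Cardinal.{0} := Order.succ μ with hl
  have hreg : l.IsRegular := Cardinal.isRegular_succ hμ0
  have hIl : #I < l := (le_max_left _ _).trans_lt (Order.lt_succ μ)
  set o : Ordinal.{0} := l.ord with ho
  have hlim : Order.IsSuccLimit o := Cardinal.isSuccLimit_ord (hμ0.trans (Order.le_succ μ))
  have hsl : (Cardinal.beth o).IsStrongLimit := Cardinal.isStrongLimit_beth.2 hlim.isSuccPrelimit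
  have hlt : l ≤ Cardinal.beth o := Cardinal.le_beth_ord l
  have h0 : ℵ₀ < Cardinal.beth o := (hμ0.trans_lt (Order.lt_succ μ)).trans_le hlt
  refine ⟨(Cardinal.beth o).out, ?_, ?_, ?_, ?_⟩
  · rw [← Cardinal.mk_ne_zero_iff, Cardinal.mk_out]
    exact Cardinal.beth_ne_zero o
  · rw [Cardinal.mk_out]
    exact h0
  · intro x hx
    rw [Cardinal.mk_out] at hx ⊢
    exact hsl.two_power_lt hx
  · intro f hf
    simp only [Cardinal.mk_out] at hf ⊢
    have h1 : ∀ i, ∃ a < o, f i ≤ Cardinal.beth a := by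
      intro i
      have h2 := hf i
      rw [Cardinal.beth_limit hlim] at h2
      obtain ⟨⟨a, ha⟩, h3⟩ := exists_lt_of_lt_ciSup' h2
      exact ⟨a, ha, h3.le⟩
    choose a ha hfa using h1
    have h2 : (⨆ i, a i) < o := Cardinal.iSup_lt_ord_of_isRegular hreg hIl ha
    have h3 : ∀ i, f i ≤ Cardinal.beth (⨆ i, a i) := fun i =>
      (hfa i).trans (Cardinal.beth_mono (Ordinal.le_iSup a i))
    have h4 : Cardinal.sum f ≤ #I * Cardinal.beth (⨆ i, a i) := by
      refine (Cardinal.sum_le_sum f (fun _ => Cardinal.beth (⨆ i, a i)) h3).trans ?_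
      rw [Cardinal.sum_const']
    refine h4.trans_lt (Cardinal.mul_lt_of_lt h0.le (hIl.trans_le hlt) ?_)
    exact Cardinal.beth_strictMono h2

end Pool.Agent.Mil
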