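import Pool.Agent.Lib.Mil.W.Def

/-!
# Existence of the iteration: the recursion

The conditions are functions `I → K`; `S a` is the stage `a`: the set of its conditions and their order (`Ty S` is the
preordered type: its order is the reflexive transitive closure of the given relation). `cod S` codes the names of
superperfect trees by elements of `K`, `dec S` decodes. `nxt a S` is the stage `a` computed from the stages `S c`, `c < a`.
PROOF of `exists_S`. `nxt a S` depends only on the values `S c` with `c < a` (`nxt_congr`: `Set.ext` and `funext`; rewrite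
`S c = S' c`; it is simplest to prove that `nxt a S = nxt a (fun c => if (c : WithTop I) < a then S c else D)` for a fixed `D : St I K`,
by `split_ifs`/`simp only [h, if_true]` inside the binders). Then use `WellFounded.fix` on `WithTop I` with
`F a prev = nxt a (fun c => if h : (c : WithTop I) < a then prev c h else D)` and `WellFounded.fix_eq`.
-/

set_option autoImplicit false
set_option linter.unusedSectionVars false
set_option linter.unusedVariables false

namespace Pool.Agent.Mil

variable {I : Type} [LinearOrder I]

/-- a stage: the conditions and their order -/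
structure St (I K : Type) where
  A : Set (I → K)
  le : (I → K) → (I → K) → Prop

/-- the type of the conditions -/
def Ty {K : Type} (S : St I K) : Type := {f : I → K // f ∈ S.A}

instance {K : Type} (S : St I K) : Preorder (Ty S) where
  le f g := Relation.ReflTransGen (fun x y : Ty S => S.le x.1 y.1) f g
  le_refl _ := Relation.ReflTransGen.refl
  le_trans _ _ _ h h' := Relation.ReflTransGen.trans h h'

theorem ty_le {K : Type} {S : St I K} {f g : Ty S} :
    f ≤ g ↔ Relation.ReflTransGen (fun x y : Ty S => S.le x.1 y.1) f g := Iff.rfl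

open Classical in
/-- coding of names -/
noncomputable def cod {K : Type} (k0 : K) (S : St I K) : MNm (Ty S) → K :=
  if h : ∃ f : MNm (Ty S) → K, Function.Injective f then h.choose else fun _ => k0

theorem cod_inj {K : Type} (k0 : K) {S : St I K} (h : ∃ f : MNm (Ty S) → K, Function.Injective f) :
    Function.Injective (cod k0 S) := by
  rw [cod, dif_pos h]
  exact h.choose_spec

open Classical in
/-- decoding of names -/
noncomputable def dec {K : Type} (k0 : K) (S : St I K) (k : K) : MNm (Ty S) :=
  if h : ∃ T, cod k0 S T = k then h.choose else MNm.full (Ty S)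

theorem cod_dec {K : Type} (k0 : K) {S : St I K} {k : K} (h : k ∈ Set.range (cod k0 S)) :
    cod k0 S (dec k0 S k) = k := by
  have h' : ∃ T, cod k0 S T = k := h
  rw [dec, dif_pos h']
  exact h'.choose_spec

open Classical in
/-- restriction of a function to the coordinates below `b` -/
noncomputable def cut {K : Type} (k0 : K) (b : WithTop I) (f : I → K) : I → K :=
  fun c => if (c : WithTop I) < b then f c else k0

/-- the stage `a`, computed from the earlier stages -/
noncomputable def nxt {K : Type} (k0 : K) (a : WithTop I) (S : I → St I K) : St I K where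
  A := {f | (∀ c : I, (c : WithTop I) < a → f c ∈ Set.range (cod k0 (S c))) ∧
    (∀ c : I, ¬ (c : WithTop I) < a → f c = k0) ∧
    {c : I | (c : WithTop I) < a ∧ f c ≠ cod k0 (S c) (MNm.full (Ty (S c)))}.Countable}
  le f g := ∀ c : I, (c : WithTop I) < a → ∀ s, ∀ q p' : Ty (S c), q.1 = cut k0 c f → p' ≤ q →
    p' ∈ (dec k0 (S c) (f c)).t s → p' ∈ (dec k0 (S c) (g c)).t s

/-- all stages -/
def IsS {K : Type} (k0 : K) (S : WithTop I → St I K) : Prop := ∀ a, S a = nxt k0 a (fun c => S c)

private theorem nxt_congr {K : Type} (k0 : K) (a : WithTop I) {S S' : I → St I K}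
    (h : ∀ c : I, (c : WithTop I) < a → S c = S' c) : nxt k0 a S = nxt k0 a S' := by
  have hA : (nxt k0 a S).A = (nxt k0 a S').A := by
    ext f
    have h1 : (∀ c : I, (c : WithTop I) < a → f c ∈ Set.range (cod k0 (S c))) ↔
        (∀ c : I, (c : WithTop I) < a → f c ∈ Set.range (cod k0 (S' c))) :=
      forall_congr' fun c => forall_congr' fun hc => by rw [h c hc]
    have h3 : {c : I | (c : WithTop I) < a ∧ f c ≠ cod k0 (S c) (MNm.full (Ty (S c)))} =
        {c : I | (c : WithTop I) < a ∧ f c ≠ cod k0 (S' c) (MNm.full (Ty (S' c)))} := by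
      ext c
      exact and_congr_right fun hc => by rw [h c hc]
    change ((∀ c : I, (c : WithTop I) < a → f c ∈ Set.range (cod k0 (S c))) ∧
      (∀ c : I, ¬ (c : WithTop I) < a → f c = k0) ∧
      {c : I | (c : WithTop I) < a ∧ f c ≠ cod k0 (S c) (MNm.full (Ty (S c)))}.Countable) ↔
      ((∀ c : I, (c : WithTop I) < a → f c ∈ Set.range (cod k0 (S' c))) ∧
      (∀ c : I, ¬ (c : WithTop I) < a → f c = k0) ∧
      {c : I | (c : WithTop I) < a ∧ f c ≠ cod k0 (S' c) (MNm.full (Ty (S' c)))}.Countable)
    rw [h1, h3]
  have hl : (nxt k0 a S).le = (nxt k0 a S').le := by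
    funext f g
    refine propext (forall_congr' fun c => forall_congr' fun hc => ?_)
    rw [h c hc]
  have key : ∀ X Y : St I K, X.A = Y.A → X.le = Y.le → X = Y := by
    rintro ⟨A, l⟩ ⟨A', l'⟩ h1 h2
    simp only at h1 h2
    subst h1
    subst h2
    rfl
  exact key _ _ hA hl

theorem exists_S [WellFoundedLT I] {K : Type} (k0 : K) : ∃ S : WithTop I → St I K, IsS k0 S := by
  classical
  let F : (a : WithTop I) → ((b : WithTop I) → b < a → St I K) → St I K := fun a prev =>
    nxt k0 a (fun c => if h : (c : WithTop I) < a then prev c h else ⟨∅, fun _ _ => False⟩)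
  have wf : WellFounded (fun a b : WithTop I => a < b) := wellFounded_lt
  refine ⟨wf.fix F, fun a => ?_⟩
  rw [wf.fix_eq F a]
  refine nxt_congr k0 a fun c hc => ?_
  rw [dif_pos hc]

end Pool.Agent.Mil
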