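import Pool.Agent.Lib.Mil.W.ExB

/-!
# Existence of the iteration: the order

PROOF. `mem_A`: rewrite with `hS a` (the set `(nxt k0 a _).A` is given by the definition). `cut_mem`: at `c < b` the values are the
same; at `¬ c < b` the value is `k0`; the support is contained in that of `f`. `le_raw`: by well-founded induction on `a` we show
that the relation `(S a).le` on the elements of `(S a).A` is reflexive and transitive; then the reflexive transitive closure
is the relation itself (`Relation.reflTransGen_eq_self` or an induction on the closure). Reflexive: clear (rewrite `(S a).le` by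
`hS a`). Transitive: let `f, g, h ∈ (S a).A`, `f ≤ g ≤ h`, `c < a`, `q.1 = cut c f`, `p' ≤ q`, `p' ∈ (dec (f c)).t s`; then
`p' ∈ (dec (g c)).t s`; let `q' = ⟨cut c g, cut_mem ..⟩ : Ty (S c)`. `q ≤ q'`: by induction it suffices `(S c).le (cut c f) (cut c g)`: for
`c' < c`: `cut c' (cut c f) = cut c' f` (`cut_cut`), `(cut c f) c' = f c'`, so this is `(S a).le f g` at `c'`. Hence `p' ≤ q'` and
`p' ∈ (dec (h c)).t s`.
-/

set_option autoImplicit false
set_option linter.unusedSectionVars false
set_option linter.unusedVariables false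

namespace Pool.Agent.Mil

variable {I : Type} [LinearOrder I] {K : Type} {k0 : K} {S : WithTop I → St I K}

theorem mem_A (hS : IsS k0 S) (a : WithTop I) (f : I → K) : f ∈ (S a).A ↔
    (∀ c : I, (c : WithTop I) < a → f c ∈ Set.range (cod k0 (S c))) ∧
    (∀ c : I, ¬ (c : WithTop I) < a → f c = k0) ∧
    {c : I | (c : WithTop I) < a ∧ f c ≠ cod k0 (S c) (MNm.full (Ty (S c)))}.Countable := by
  constructor
  · intro h
    rw [hS a] at h
    exact h
  · intro h
    rw [hS a]
    exact h

theorem cut_of_lt (b : WithTop I) (f : I → K) {c : I} (h : (c : WithTop I) < b) : cut k0 b f c = f c := by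
  unfold cut
  rw [if_pos h]

private theorem ExC_cut_of_not (b : WithTop I) (f : I → K) {c : I} (h : ¬ (c : WithTop I) < b) :
    cut k0 b f c = k0 := by
  unfold cut
  rw [if_neg h]

theorem cut_cut {b b' : WithTop I} (h : b' ≤ b) (f : I → K) : cut k0 b' (cut k0 b f) = cut k0 b' f := by
  funext c
  by_cases hc : (c : WithTop I) < b'
  · rw [cut_of_lt b' _ hc, cut_of_lt b _ (hc.trans_le h), cut_of_lt b' _ hc]
  · rw [ExC_cut_of_not b' _ hc, ExC_cut_of_not b' _ hc]

theorem cut_mem (hS : IsS k0 S) {a b : WithTop I} (h : b ≤ a) {f : I → K} (hf : f ∈ (S a).A) :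
    cut k0 b f ∈ (S b).A := by
  rw [mem_A hS] at hf ⊢
  obtain ⟨h1, h2, h3⟩ := hf
  refine ⟨fun c hc => ?_, fun c hc => ExC_cut_of_not b f hc, h3.mono ?_⟩
  · rw [cut_of_lt b f hc]
    exact h1 c (hc.trans_le h)
  · rintro c ⟨hc1, hc2⟩
    rw [cut_of_lt b f hc1] at hc2
    exact ⟨hc1.trans_le h, hc2⟩

private theorem ExC_raw (hS : IsS k0 S) (a : WithTop I) (f g : I → K) : (S a).le f g ↔
    ∀ c : I, (c : WithTop I) < a → ∀ s, ∀ q' p' : Ty (S c), q'.1 = cut k0 c f → p' ≤ q' →
      p' ∈ (dec k0 (S c) (f c)).t s → p' ∈ (dec k0 (S c) (g c)).t s := by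
  constructor
  · intro h
    rw [hS a] at h
    exact h
  · intro h
    rw [hS a]
    exact h

theorem le_raw [WellFoundedLT I] (hS : IsS k0 S) (a : WithTop I) (p q : Ty (S a)) : p ≤ q ↔
    ∀ c : I, (c : WithTop I) < a → ∀ s, ∀ q' p' : Ty (S c), q'.1 = cut k0 c p.1 → p' ≤ q' →
      p' ∈ (dec k0 (S c) (p.1 c)).t s → p' ∈ (dec k0 (S c) (q.1 c)).t s := by
  rw [← ExC_raw hS]
  induction a using WellFoundedLT.induction with
  | ind a ih =>
    have htrans : ∀ f g h : Ty (S a), (S a).le f.1 g.1 → (S a).le g.1 h.1 → (S a).le f.1 h.1 := by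
      intro f g h hfg hgh
      have hfg' := (ExC_raw hS a _ _).1 hfg
      have hgh' := (ExC_raw hS a _ _).1 hgh
      rw [ExC_raw hS]
      intro c hc s q' p' hq' hp' hps
      refine hgh' c hc s ⟨cut k0 c g.1, cut_mem hS hc.le g.2⟩ p' rfl (hp'.trans ?_)
        (hfg' c hc s q' p' hq' hp' hps)
      refine (ih c hc _ _).2 ((ExC_raw hS _ _ _).2 ?_)
      intro c' hc' s' r r' hr hr' hrs
      rw [hq'] at hr hrs
      rw [cut_cut hc'.le] at hr
      rw [cut_of_lt _ _ hc'] at hrs
      show r' ∈ (dec k0 (S c') (cut k0 c g.1 c')).t s'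
      rw [cut_of_lt _ _ hc']
      exact hfg' c' (hc'.trans hc) s' r r' hr hr' hrs
    constructor
    · intro h
      rw [ty_le] at h
      induction h with
      | refl =>
        rw [ExC_raw hS]
        exact fun _ _ _ _ _ _ _ h => h
      | tail _ h2 ih2 => exact htrans _ _ _ ih2 h2
    · intro h
      rw [ty_le]
      exact Relation.ReflTransGen.single h

end Pool.Agent.Mil
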