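import Pool.Agent.Lib.Mil.W.ExC

/-!
# Existence of the iteration: cardinalities

PROOF. `card_nm`: `T ↦ T.t` is injective (`MNm.ext`), so `#(MNm Q) ≤ #(List ℕ → Set Q) = 2 ^ (#Q * ℵ₀)` (`Set Q = Q → Prop`, currying:
`List ℕ → Q → Prop` is equivalent to `List ℕ × Q → Prop`), and `#Q * ℵ₀ < #K` (`Cardinal.mul_lt_of_lt`). `card_ty`: well-founded
induction on `a`. The map `Ty (S a) → ∀ c : {c : I // (c : WithTop I) < a}, MNm (Ty (S c))`, `p ↦ (dec (p.1 c))_c`, is injective: `p.1 c` is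
determined by `dec (p.1 c)` for `c < a` (`cod_dec`, `mem_A`) and is `k0` for the other `c`. By induction and `card_nm` each factor has
`< #K` elements; let `x c` be its cardinality for `c < a` and `0` otherwise: `∏ ≤ ∏_{c : I} 2 ^ (x c) = 2 ^ (Cardinal.sum x) < #K`
(`Cardinal.mk_pi`, `Cardinal.prod_le_prod`, `Cardinal.cantor`, and `Cardinal.power_sum`-like; or embed the product into
`(Σ c, MNm ..) → Prop` by graphs: `f ↦ {⟨c, f c⟩}`; then `# ≤ 2 ^ #(Σ c, ..)`, `#(Σ c, ..) = Cardinal.sum ..`, `Cardinal.mk_sigma`).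
-/

set_option autoImplicit false
set_option linter.unusedSectionVars false
set_option linter.unusedVariables false

namespace Pool.Agent.Mil

open Cardinal

variable {I : Type} [LinearOrder I] {K : Type} {k0 : K} {S : WithTop I → St I K}

theorem card_nm (h0 : ℵ₀ < #K) (hK : ∀ x < #K, (2 : Cardinal.{0}) ^ x < #K) {Q : Type} [Preorder Q] (hQ : #Q < #K) :
    #(MNm Q) < #K := by
  have h1 : #(MNm Q) ≤ #(Set (List ℕ × Q)) := by
    refine Cardinal.mk_le_of_injective (f := fun T : MNm Q => {x : List ℕ × Q | x.2 ∈ T.t x.1}) ?_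
    intro T T' h
    apply MNm.ext
    funext s
    ext q
    have h2 := congrArg (fun A : Set (List ℕ × Q) => (s, q) ∈ A) h
    exact iff_of_eq h2
  refine h1.trans_lt ?_
  rw [Cardinal.mk_set]
  refine hK _ ?_
  rw [Cardinal.mk_prod, Cardinal.lift_id, Cardinal.lift_id]
  exact Cardinal.mul_lt_of_lt h0.le (by rw [Cardinal.mk_eq_aleph0]; exact h0) hQ

theorem card_ty [WellFoundedLT I] (hS : IsS k0 S) (h0 : ℵ₀ < #K) (hK : ∀ x < #K, (2 : Cardinal.{0}) ^ x < #K)
    (hf : ∀ f : I → Cardinal.{0}, (∀ i, f i < #K) → Cardinal.sum f < #K) (a : WithTop I) : #(Ty (S a)) < #K := by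
  induction a using WellFoundedLT.induction with
  | ind a ih =>
    have h1 : #(Σ c : I, {n : MNm (Ty (S c)) // (c : WithTop I) < a}) < #K := by
      rw [Cardinal.mk_sigma]
      refine hf _ fun c => ?_
      by_cases hc : (c : WithTop I) < a
      · exact (Cardinal.mk_subtype_le _).trans_lt (card_nm h0 hK (ih c hc))
      · have : IsEmpty {n : MNm (Ty (S c)) // (c : WithTop I) < a} := ⟨fun n => hc n.2⟩
        rw [Cardinal.mk_eq_zero]
        exact Cardinal.aleph0_pos.trans h0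
    have h2 : #(Ty (S a)) ≤ #(Set (Σ c : I, {n : MNm (Ty (S c)) // (c : WithTop I) < a})) := by
      refine Cardinal.mk_le_of_injective (f := fun f : Ty (S a) =>
        {t : Σ c : I, {n : MNm (Ty (S c)) // (c : WithTop I) < a} | t.2.1 = dec k0 (S t.1) (f.1 t.1)}) ?_
      intro f g h
      apply Subtype.ext
      funext c
      have hf1 := (mem_A hS a f.1).1 f.2
      have hg1 := (mem_A hS a g.1).1 g.2
      by_cases hc : (c : WithTop I) < a
      · have h3 : (⟨c, ⟨dec k0 (S c) (f.1 c), hc⟩⟩ : Σ c : I, {n : MNm (Ty (S c)) // (c : WithTop I) < a}) ∈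
            {t : Σ c : I, {n : MNm (Ty (S c)) // (c : WithTop I) < a} | t.2.1 = dec k0 (S t.1) (f.1 t.1)} := rfl
        change (fun f : Ty (S a) => {t : Σ c : I, {n : MNm (Ty (S c)) // (c : WithTop I) < a} |
          t.2.1 = dec k0 (S t.1) (f.1 t.1)}) f = _ at h
        have h4 : dec k0 (S c) (f.1 c) = dec k0 (S c) (g.1 c) := by
          have h5 : (⟨c, ⟨dec k0 (S c) (f.1 c), hc⟩⟩ : Σ c : I, {n : MNm (Ty (S c)) // (c : WithTop I) < a}) ∈
            {t : Σ c : I, {n : MNm (Ty (S c)) // (c : WithTop I) < a} | t.2.1 = dec k0 (S t.1) (g.1 t.1)} := by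
            have h6 : {t : Σ c : I, {n : MNm (Ty (S c)) // (c : WithTop I) < a} | t.2.1 = dec k0 (S t.1) (f.1 t.1)} =
              {t : Σ c : I, {n : MNm (Ty (S c)) // (c : WithTop I) < a} | t.2.1 = dec k0 (S t.1) (g.1 t.1)} := h
            rw [← h6]
            exact h3
          exact h5
        rw [← cod_dec k0 (hf1.1 c hc), ← cod_dec k0 (hg1.1 c hc), h4]
      · rw [hf1.2.1 c hc, hg1.2.1 c hc]
    refine h2.trans_lt ?_
    rw [Cardinal.mk_set]
    exact hK _ h1

end Pool.Agent.Mil
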