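import Pool.Agent.Lib.Mil.W.ExA
import Pool.Agent.Lib.Mil.W.ExD

/-!
# Existence of the iteration

PROOF. `exists_K I` gives `K`, `k0`; `exists_S k0` gives `S`. By `card_ty` and `card_nm` there is an injective map
`MNm (Ty (S a)) → K` for all `a`, so `cod k0 (S a)` is injective (`cod_inj`) and `dec k0 (S a) (cod k0 (S a) T) = T`. Define
`P a = Ty (S a)`, `co a c _ p = dec k0 (S c) (p.1 c)`, `r a b h p = ⟨cut k0 b p.1, cut_mem ..⟩`. `co_r`: `cut_of_lt`. `inj`: `cod_dec` and
`mem_A`; `Subtype.ext`, `funext`. `ctb`: `co a c p ≠ full` implies `p.1 c ≠ cod full`. `surj`: `p.1 c = cod k0 (S c) (f c h)` if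
`h : c < a`, otherwise `k0`; `mem_A`. `le_iff`: `le_raw`; `q'` is `r a c _ p` (`Subtype.ext`).
-/

set_option autoImplicit false
set_option linter.unusedSectionVars false
set_option linter.unusedVariables false

namespace Pool.Agent.Mil

theorem exists_itm (I : Type) [LinearOrder I] [WellFoundedLT I] : Nonempty (Itm I) := by
  classical
  obtain ⟨K, ⟨k0⟩, h0, hK, hf⟩ := exists_K I
  obtain ⟨S, hS⟩ := exists_S (I := I) k0
  have hcod : ∀ a : WithTop I, Function.Injective (cod k0 (S a)) := fun a => cod_inj k0 (by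
    have h1 : Cardinal.mk (MNm (Ty (S a))) < Cardinal.mk K := card_nm h0 hK (card_ty hS h0 hK hf a)
    obtain ⟨f⟩ := h1.le
    exact ⟨f, f.injective⟩)
  have hdec : ∀ (a : WithTop I) (T : MNm (Ty (S a))), dec k0 (S a) (cod k0 (S a) T) = T := fun a T =>
    hcod a (cod_dec k0 ⟨T, rfl⟩)
  refine ⟨{
    P := fun a => Ty (S a)
    ord := fun a => inferInstance
    co := fun a c _ p => dec k0 (S c) (p.1 c)
    r := fun a b h p => ⟨cut k0 b p.1, cut_mem hS h p.2⟩
    co_r := fun a b h p c hc => by
      change dec k0 (S c) (cut k0 b p.1 c) = dec k0 (S c) (p.1 c)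
      rw [cut_of_lt b p.1 hc]
    inj := fun a p q h => by
      refine Subtype.ext (funext fun c => ?_)
      have hp := (mem_A hS a p.1).1 p.2
      have hq := (mem_A hS a q.1).1 q.2
      by_cases hc : (c : WithTop I) < a
      · have h1 : dec k0 (S c) (p.1 c) = dec k0 (S c) (q.1 c) := h c hc
        rw [← cod_dec k0 (hp.1 c hc), ← cod_dec k0 (hq.1 c hc), h1]
      · rw [hp.2.1 c hc, hq.2.1 c hc]
    ctb := fun a p => by
      refine ((mem_A hS a p.1).1 p.2).2.2.mono ?_
      rintro c ⟨hc, hne⟩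
      refine ⟨hc, fun h1 => hne ?_⟩
      change dec k0 (S c) (p.1 c) = MNm.full (Ty (S c))
      rw [h1, hdec]
    surj := fun a f hfc => by
      have hg : (fun c : I => if h : (c : WithTop I) < a then cod k0 (S c) (f c h) else k0) ∈ (S a).A := by
        refine (mem_A hS a _).2 ⟨fun c hc => ?_, fun c hc => ?_, hfc.mono ?_⟩
        · rw [dif_pos hc]
          exact ⟨f c hc, rfl⟩
        · rw [dif_neg hc]
        · rintro c ⟨hc, hne⟩
          rw [dif_pos hc] at hne
          exact ⟨hc, fun h1 => hne (by rw [h1])⟩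
      refine ⟨⟨_, hg⟩, fun c hc => ?_⟩
      change dec k0 (S c) (if h : (c : WithTop I) < a then cod k0 (S c) (f c h) else k0) = f c hc
      rw [dif_pos hc, hdec]
    le_iff := fun a p q => by
      rw [le_raw hS a p q]
      constructor
      · intro H c hc s p' hp' h1
        exact H c hc s _ p' rfl hp' h1
      · intro H c hc s q' p' hq' hp' h1
        have e1 : q' = ⟨cut k0 c p.1, cut_mem hS hc.le p.2⟩ := Subtype.ext hq'
        rw [e1] at hp'
        exact H c hc s p' hp' h1 }⟩

end Pool.Agent.Mil
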