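import Pool.Agent.Lib.Mil.W.Def

/-!
# What is used of the fusion order

`Kit I` collects what the proof of the density theorem uses: a relation `Fx F N χ` (`χ` fixes the first nodes at the
coordinates in `F`), the theorem on countably many open dense sets, and the fusion of a sequence of choices.
`WW P d a` : the conditions of the stage `a` can be met above the stage `b` with a pure extension below `b`.
-/

set_option autoImplicit false
set_option linter.unusedSectionVars false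
set_option linter.unusedVariables false

namespace Pool.Agent.Mil

variable {I : Type} [LinearOrder I]

/-- the fusion order and its properties -/
structure Kit (I : Type) [LinearOrder I] where
  Fx : Finset I → ℕ → Gam I → Prop
  mul : ∀ F N χ χ', Fx F N χ → Fx F N χ' → Fx F N (χ * χ')
  triv : ∀ F N (χ : Gam I), (∀ a ∈ F, ∀ x s, χ.e a x s = s) → Fx F N χ
  prop : ∀ A : Set I, IsLowerSet A → ∀ F : Finset I, (↑F : Set I) ⊆ A → ∀ (N : ℕ) (D : ℕ → Set (Gam I)),
    (∀ i, DO A (D i)) → ∃ φ : Gam I, φ.In A ∧ Fx F N φ ∧ ∃ C : Set I, C.Countable ∧ C ⊆ A ∧ ∀ i, Loc C (D i) φ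
  game : ∀ A : ℕ → Set I, (∀ k, IsLowerSet (A k)) → Monotone A → ∀ (Q : ℕ → Gam I → Prop) (F0 : Finset I),
    (↑F0 : Set I) ⊆ A 0 → ∀ N0 : ℕ, Q 0 1 → (∀ k θ, Q k θ → θ.In (A k)) →
    (∀ k θ (F : Finset I) (N : ℕ), Q k θ → (↑F : Set I) ⊆ A k →
      ∃ χ : Gam I, χ.In (A (k + 1)) ∧ Fx F N χ ∧ Q (k + 1) (θ * χ)) →
    ∃ Θ : Gam I, Θ.In (⋃ k, A k) ∧ Fx F0 N0 Θ ∧ ∀ k, ∃ θ χ, Q k θ ∧ Θ = θ * χ

/-- the conditions of the stage `a` can be met, with pure extensions at the stages `b ≤ a` -/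
def WW (K : Kit I) (P : Itm I) (d : ∀ a, Gam I → P.P a) (a : WithTop I) : Prop :=
  ∀ (b : WithTop I) (h : b ≤ a) (φ : Gam I), φ.In (lo b) → ∀ p : P.P a, d b φ ≤ P.r a b h p →
    ∀ (F : Finset I) (N : ℕ), (↑F : Set I) ⊆ lo b → ∃ χ : Gam I, χ.In (lo a) ∧ K.Fx F N χ ∧ d a (φ * χ) ≤ p

/-- the conditions which force that `v` has infinitely many immediate successors in the tree -/
def Spc {P : Type} [Preorder P] (T : MNm P) (v : List ℕ) : Set P :=
  {p | ∀ m, ∀ q' ≤ p, ∃ r ≤ q', ∃ n ≥ m, r ∈ T.t (v ++ [n])}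

end Pool.Agent.Mil
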