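import Pool.Agent.Lib.Mil.Fus
import Pool.Agent.Lib.Mil.W.Kit

/-!
# Fusion of a sequence of choices with growing sets of coordinates

Compare Lib/Mil/FusB.lean (same construction, one fixed set of coordinates). PROOF. For `k : ℕ` and `φ : Gam I` choose a countable
set `Cs k φ` with `φ.Spt (Cs k φ)` and, if `φ.In (A k)`, `Cs k φ ⊆ A k` (`Gam.exists_spt`, `Gam.Spt.inter`), and a function
`en k φ : ℕ → Option I` with `a ∈ Cs k φ ↔ ∃ i, en k φ i = some a`. By recursion build `φ n`, `θ n`, `F n` with `θ 0 = 1`, `F 0 = F0`,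
`Q n (θ n)`, `F n ⊆ A n`, `(φ n).In (A (n + 1))`, `Fix (F n) (N0 + n) (φ n)`, `θ (n + 1) = θ n * φ n`, `Q (n + 1) (θ (n + 1))` (hypothesis
`hstep`), and, with `Nat.unpair n = (j, i)` (`j ≤ n`), `F (n + 1) = F n ∪ {a}` if `en (j + 1) (φ j) i = some a`, `F (n + 1) = F n`
otherwise; then `F (n + 1) ⊆ A (n + 1)`, since `a ∈ Cs (j + 1) (φ j) ⊆ A (j + 1) ⊆ A (n + 1)`. For the recursion take as state at step `n`
a triple `(φs : ℕ → Gam I) × (F : Finset I) × (θ : Gam I)` where only the values `φs m`, `m < n`, matter, with the invariant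
`Q n θ ∧ F ⊆ A n ∧ ∀ m < n, (φs m).In (A (m + 1))`; the step updates `φs` at `n` (`Function.update`) and adds the new element after the
choice of `φ n`. Apply `exists_fusion` with `C n = Cs (n + 1) (φ n)`, `N n = N0 + n`; `hcov`: if `a ∈ C j`, `en (j + 1) (φ j) i = some a`, then
`a ∈ F (Nat.pair j i + 1)`. `Θ = g 0`: `Fix (F 0) (N0 + 0) (g 0)`; `g 0 = θ k * g k` by induction on `k` (`mul_assoc`); `Q k (θ k)`;
`Θ.In (⋃ k, A k)` since all `φ n` are (`In.mono`).
-/

set_option autoImplicit false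
set_option linter.unusedSectionVars false
set_option linter.unusedVariables false

namespace Pool.Agent.Mil

variable {I : Type} [LinearOrder I] [WellFoundedLT I]

private theorem exists_cs (A : ℕ → Set I) (hA : ∀ k, IsLowerSet (A k)) (k : ℕ) (φ : Gam I) :
    ∃ C : Set I, C.Countable ∧ φ.Spt C ∧ (φ.In (A k) → C ⊆ A k) := by
  obtain ⟨C, hC, hS⟩ := φ.exists_spt
  by_cases h : φ.In (A k)
  · exact ⟨C ∩ A k, hC.mono Set.inter_subset_left, hS.inter (hA k) h, fun _ => Set.inter_subset_right⟩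
  · exact ⟨C, hC, hS, fun h' => absurd h' h⟩

private theorem exists_en {C : Set I} (hC : C.Countable) :
    ∃ e : ℕ → Option I, ∀ a, a ∈ C ↔ ∃ i, e i = some a := by
  rcases Set.eq_empty_or_nonempty C with h | h
  · refine ⟨fun _ => none, fun a => ?_⟩
    rw [h]
    simp
  · obtain ⟨f, hf⟩ := hC.exists_eq_range h
    refine ⟨fun i => some (f i), fun a => ?_⟩
    rw [hf]
    simp

theorem exists_game (A : ℕ → Set I) (hA : ∀ k, IsLowerSet (A k)) (hm : Monotone A) (Q : ℕ → Gam I → Prop)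
    (F0 : Finset I) (hF0 : (↑F0 : Set I) ⊆ A 0) (N0 : ℕ) (h0 : Q 0 1) (hin : ∀ k θ, Q k θ → θ.In (A k))
    (hstep : ∀ k θ (F : Finset I) (N : ℕ), Q k θ → (↑F : Set I) ⊆ A k →
      ∃ χ : Gam I, χ.In (A (k + 1)) ∧ Fix F N χ ∧ Q (k + 1) (θ * χ)) :
    ∃ Θ : Gam I, Θ.In (⋃ k, A k) ∧ Fix F0 N0 Θ ∧ ∀ k, ∃ θ χ, Q k θ ∧ Θ = θ * χ := by
  classical
  choose Cs hCs1 hCs2 hCs3 using exists_cs A hA
  choose en hen using fun (k : ℕ) (φ : Gam I) => exists_en (hCs1 k φ)
  obtain ⟨X, hX⟩ : ∃ X : ℕ → Gam I → Finset I → ℕ → Gam I, ∀ k θ (F : Finset I) (N : ℕ), Q k θ →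
      (↑F : Set I) ⊆ A k → (X k θ F N).In (A (k + 1)) ∧ Fix F N (X k θ F N) ∧ Q (k + 1) (θ * X k θ F N) := by
    refine ⟨fun k θ F N => if h : Q k θ ∧ (↑F : Set I) ⊆ A k then (hstep k θ F N h.1 h.2).choose else 1, ?_⟩
    intro k θ F N h1 h2
    have h3 : Q k θ ∧ (↑F : Set I) ⊆ A k := ⟨h1, h2⟩
    simp only [dif_pos h3]
    exact (hstep k θ F N h1 h2).choose_spec
  let add : Option I → Finset I → Finset I := fun o F => match o with
    | some a => insert a F
    | none => F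
  let stp : ℕ → (ℕ → Gam I) × Finset I × Gam I → (ℕ → Gam I) × Finset I × Gam I := fun k p =>
    (Function.update p.1 k (X k p.2.2 p.2.1 (N0 + k)),
      add (en ((Nat.unpair k).1 + 1) (Function.update p.1 k (X k p.2.2 p.2.1 (N0 + k)) (Nat.unpair k).1)
        (Nat.unpair k).2) p.2.1, p.2.2 * X k p.2.2 p.2.1 (N0 + k))
  let S : ℕ → (ℕ → Gam I) × Finset I × Gam I := fun n => Nat.rec (fun _ => 1, F0, 1) stp n
  have hSs : ∀ k, S (k + 1) = stp k (S k) := fun k => rfl
  let F : ℕ → Finset I := fun k => (S k).2.1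
  let θ : ℕ → Gam I := fun k => (S k).2.2
  let φ : ℕ → Gam I := fun k => X k (θ k) (F k) (N0 + k)
  have hθ0 : θ 0 = 1 := rfl
  have hF00 : F 0 = F0 := rfl
  have hθs : ∀ k, θ (k + 1) = θ k * φ k := fun k => rfl
  have hf : ∀ k m, m < k → (S k).1 m = φ m := by
    intro k
    induction k with
    | zero => intro m hm'; exact absurd hm' (Nat.not_lt_zero m)
    | succ k ih =>
      intro m hm'
      have h1 : (S (k + 1)).1 m = Function.update (S k).1 k (φ k) m := rfl
      rw [h1]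
      rcases Nat.lt_succ_iff_lt_or_eq.1 hm' with h2 | h2
      · rw [Function.update_of_ne (Nat.ne_of_lt h2)]
        exact ih m h2
      · subst h2
        rw [Function.update_self]
  have hFs : ∀ k, F (k + 1) = add (en ((Nat.unpair k).1 + 1) (φ (Nat.unpair k).1) (Nat.unpair k).2) (F k) := by
    intro k
    have h1 : F (k + 1) = add (en ((Nat.unpair k).1 + 1) (Function.update (S k).1 k (φ k) (Nat.unpair k).1)
        (Nat.unpair k).2) (F k) := rfl
    have h2 : Function.update (S k).1 k (φ k) (Nat.unpair k).1 = φ (Nat.unpair k).1 := by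
      rcases Nat.lt_or_eq_of_le (Nat.unpair_left_le k) with h3 | h3
      · rw [Function.update_of_ne (Nat.ne_of_lt h3)]
        exact hf k _ h3
      · rw [h3, Function.update_self]
    rw [h1, h2]
  have hadd : ∀ (o : Option I) (G : Finset I), G ⊆ add o G := by
    intro o G
    cases o with
    | none => exact Finset.Subset.refl _
    | some a => exact Finset.subset_insert _ _
  have inv : ∀ k, Q k (θ k) ∧ (↑(F k) : Set I) ⊆ A k ∧ ∀ m < k, (φ m).In (A (m + 1)) := by
    intro k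
    induction k with
    | zero => exact ⟨h0, hF0, fun m hm' => absurd hm' (Nat.not_lt_zero m)⟩
    | succ k ih =>
      obtain ⟨i1, i2, i3⟩ := ih
      obtain ⟨x1, x2, x3⟩ := hX k (θ k) (F k) (N0 + k) i1 i2
      have i4 : ∀ m < k + 1, (φ m).In (A (m + 1)) := by
        intro m hm'
        rcases Nat.lt_succ_iff_lt_or_eq.1 hm' with h2 | h2
        · exact i3 m h2
        · subst h2
          exact x1
      refine ⟨x3, ?_, i4⟩
      rw [hFs]
      have i5 : (φ (Nat.unpair k).1).In (A ((Nat.unpair k).1 + 1)) :=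
        i4 _ (Nat.lt_succ_of_le (Nat.unpair_left_le k))
      intro a ha
      rcases ho : en ((Nat.unpair k).1 + 1) (φ (Nat.unpair k).1) (Nat.unpair k).2 with _ | b
      · rw [ho] at ha
        exact hm (Nat.le_succ k) (i2 ha)
      · rw [ho] at ha
        have ha' : a ∈ insert b (F k) := ha
        rw [Finset.mem_insert] at ha'
        rcases ha' with h4 | h4
        · have h5 : b ∈ Cs ((Nat.unpair k).1 + 1) (φ (Nat.unpair k).1) := (hen _ _ b).2 ⟨_, ho⟩
          rw [h4]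
          exact hm (Nat.succ_le_succ (Nat.unpair_left_le k)) (hCs3 _ _ i5 h5)
        · exact hm (Nat.le_succ k) (i2 h4)
  have hφ : ∀ k, (φ k).In (A (k + 1)) := fun k => (inv (k + 1)).2.2 k (Nat.lt_succ_self k)
  have hfix : ∀ k, Fix (F k) (N0 + k) (φ k) := fun k => (hX k (θ k) (F k) (N0 + k) (inv k).1 (inv k).2.1).2.1
  have hFm : Monotone F := monotone_nat_of_le_succ fun k => by
    rw [hFs]
    exact hadd _ _
  have hcov : ∀ n, ∀ a ∈ Cs (n + 1) (φ n), ∃ m, a ∈ F m := by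
    intro n a ha
    obtain ⟨i, hi⟩ := (hen _ _ a).1 ha
    refine ⟨Nat.pair n i + 1, ?_⟩
    rw [hFs, Nat.unpair_pair]
    show a ∈ add (en (n + 1) (φ n) i) (F (Nat.pair n i))
    rw [hi]
    exact Finset.mem_insert_self _ _
  obtain ⟨g, hg1, hg2, hg3, hg4⟩ := exists_fusion φ (fun n => Cs (n + 1) (φ n)) (fun n => hCs1 _ _)
    (fun n => hCs2 _ _) F hFm (fun n => N0 + n) (fun a b hab => Nat.add_le_add_left hab N0)
    (fun n => Nat.le_add_left n N0) hfix hcov
  have hg0 : ∀ k, g 0 = θ k * g k := by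
    intro k
    induction k with
    | zero => rw [hθ0, one_mul]
    | succ k ih => rw [ih, hθs, hg1 k, mul_assoc]
  exact ⟨g 0, hg4 _ (fun n => (hφ n).mono (Set.subset_iUnion A (n + 1))) 0, hg2 0,
    fun k => ⟨θ k, g k, (inv k).1, hg0 k⟩⟩

end Pool.Agent.Mil
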