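import Pool.Agent.Lib.Mil.W.Cpt
import Pool.Agent.Lib.Mil.W.TrB

/-!
# The forcing relation of the tree of a condition

PROOF. `nt_of`: for `q ≤ dc (φ * χ)` take `r = q` and the second alternative with `χ`. `Good.of_nt`: suppose
`s ∉ Tr (φ.e c (χ.mp x))`. By `lc_tr` and `exists_cyl` there is `w : Cfg I`, `sp w.u ⊆ Set.Iio c`, with
`s ∉ Tr (φ.e c (χ.mp y))` for all `y ∈ Cy w.u`. Let `q = d c (φ * χ * w.k) ≤ d c (φ * χ)` (`hg.mono`). By definition of `nt` there is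
`r ≤ q` with: either no `r' ≤ r` is `≤ d c φ`, impossible (`r ≤ q ≤ d c (φ * χ) ≤ d c φ`); or `χ'` with `s ∈ Tr (φ.e c (χ'.mp y))` for
all `y` and `r ≤ d c (φ * χ')`. Apply `Good.cpt` to `φ`, `χ * w.k`, `χ'`, `r`: `α, β`; let `z` be any point (for example `fun _ _ => 0`);
by `cpt_mp` the points `(χ * w.k).mp (α.mp z) = χ.mp (w.k.mp (α.mp z))` and `χ'.mp (β.mp z)` agree below `c`, so `φ.e c` is the same
at both (`Gam.congr'`); but `w.k.mp (α.mp z) ∈ Cy w.u` (`Cfg.k_mp`, `pre_mem`): contradiction.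
-/

set_option autoImplicit false
set_option linter.unusedSectionVars false
set_option linter.unusedVariables false

namespace Pool.Agent.Mil

variable {I : Type} [LinearOrder I] {P : Itm I}

theorem nt_of {c : I} {dc : Gam I → P.P c} {φ χ : Gam I} {s : List ℕ} (h : ∀ x, s ∈ Tr (φ.e c (χ.mp x))) :
    dc (φ * χ) ∈ nt P c dc φ s :=
  fun q hq => ⟨q, le_rfl, Or.inr ⟨χ, h, hq⟩⟩

theorem Good.of_nt [WellFoundedLT I] {d : ∀ a, Gam I → P.P a} (hd : IsD P d) {c : I} (hg : Good P d c)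
    (φ χ : Gam I) (s : List ℕ) (h : d c (φ * χ) ∈ nt P c (d c) φ s) (x : Pt I) :
    s ∈ Tr (φ.e c (χ.mp x)) := by
  by_contra hs
  obtain ⟨w, hw1, hw2, hw3⟩ := exists_cyl (lc_tr φ χ c s) x
  have hw4 : ∀ y ∈ Cy w.u, s ∉ Tr (φ.e c (χ.mp y)) := fun y hy hy' => hs ((hw3 y hy).mp hy')
  have hq : d c (φ * χ * w.k) ≤ d c (φ * χ) := hg.mono _ _
  obtain ⟨r, hr, h1⟩ := h _ hq
  rcases h1 with h1 | ⟨χ', h1, h2⟩
  · exact h1 r le_rfl (hr.trans (hq.trans (hg.mono φ χ)))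
  · obtain ⟨α, β, hα, hβ, h3, h4⟩ := Good.cpt hd hg φ (χ * w.k) χ' r (by rw [← mul_assoc]; exact hr) h2
    have h5 := cpt_mp h3 (fun _ _ => 0)
    have h6 : φ.e c ((χ * w.k).mp (α.mp (fun _ _ => 0))) = φ.e c (χ'.mp (β.mp (fun _ _ => 0))) :=
      φ.congr' c (fun b hb => h5 b hb)
    apply hw4 (w.k.mp (α.mp fun _ _ => 0)) (by rw [Cfg.k_mp]; exact pre_mem _ _)
    rw [← Gam.mul_mp, h6]
    exact h1 _

end Pool.Agent.Mil
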