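import Pool.Agent.Lib.Mil.W.Kit
import Pool.Agent.Lib.Mil.W.Cpt

/-!
# The sets of conditions which decide the tree

PROOF. `do_dec`. OPEN: if `φ'` is in the set then `d c (φ * (φ' * χ)) ≤ d c (φ * φ')` (`hg.mono`, `mul_assoc`), so both alternatives
are inherited. DENSE: let `φ'` be `In (Set.Iio c)`. If no `p ≤ d c (φ * φ')` is in `Y` take `χ = 1`. Otherwise let `p ≤ d c (φ * φ')`,
`p ∈ Y`, `q ≤ p`, `q ∈ X i`; `Good.below` gives `χ` with `χ.In (Set.Iio c)` and `d c (φ * φ' * χ) ≤ q`, so `d c (φ * φ' * χ) ∈ X i`.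
`Spc.down`: clear. `Spc.mem`: if `p ∈ Spc T v` then `p ∈ T.t v`: by `T.reg`; for `q ≤ p` there are `r ≤ q` and `n` with
`r ∈ T.t (v ++ [n])`, and `T.tree` gives `r ∈ T.t v`. `MNm.pfx`: induction on the difference of the lists, `T.tree`.
-/

set_option autoImplicit false
set_option linter.unusedSectionVars false
set_option linter.unusedVariables false

namespace Pool.Agent.Mil

variable {I : Type} [LinearOrder I] [WellFoundedLT I] {P : Itm I} {d : ∀ a, Gam I → P.P a}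

theorem do_dec (hd : IsD P d) {c : I} (hg : Good P d c) (φ : Gam I) {Y : Set (P.P c)} {ι : Type}
    {X : ι → Set (P.P c)} (hX : ∀ i p q, q ≤ p → p ∈ X i → q ∈ X i) (hYX : ∀ p ∈ Y, ∃ q ≤ p, ∃ i, q ∈ X i) :
    DO (Set.Iio c) {θ : Gam I | (∀ p ≤ d c (φ * θ), p ∉ Y) ∨ ∃ i, d c (φ * θ) ∈ X i} := by
  constructor
  · intro φ' χ _ _ h
    have h1 : d c (φ * (φ' * χ)) ≤ d c (φ * φ') := by
      rw [← mul_assoc]
      exact hg.mono _ _
    rcases h with h | ⟨i, h⟩
    · exact Or.inl fun p hp => h p (hp.trans h1)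
    · exact Or.inr ⟨i, hX i _ _ h1 h⟩
  · intro φ' _
    by_cases h : ∀ p ≤ d c (φ * φ'), p ∉ Y
    · refine ⟨1, Gam.in_one _, Or.inl ?_⟩
      rw [mul_one]
      exact h
    · push Not at h
      obtain ⟨p, hp, hpY⟩ := h
      obtain ⟨q, hq, i, hi⟩ := hYX p hpY
      obtain ⟨α, hα, h1⟩ := Good.below hd hg (φ * φ') q (hq.trans hp)
      refine ⟨α, hα, Or.inr ⟨i, hX i _ _ ?_ hi⟩⟩
      rw [← mul_assoc]
      exact h1

theorem Spc.down {Q : Type} [Preorder Q] (T : MNm Q) (v : List ℕ) {p q : Q} (h : q ≤ p) (hp : p ∈ Spc T v) :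
    q ∈ Spc T v := fun m q' hq' => hp m q' (hq'.trans h)

theorem Spc.mem {Q : Type} [Preorder Q] (T : MNm Q) (v : List ℕ) {p : Q} (hp : p ∈ Spc T v) : p ∈ T.t v := by
  refine T.reg v p fun q hq => ?_
  obtain ⟨r, hr, n, -, h⟩ := hp 0 q hq
  exact ⟨r, hr, T.tree v n r h⟩

theorem MNm.pfx {Q : Type} [Preorder Q] (T : MNm Q) {s u : List ℕ} (h : s <+: u) {p : Q} (hp : p ∈ T.t u) :
    p ∈ T.t s := by
  obtain ⟨t, rfl⟩ := h
  induction t using List.reverseRecOn with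
  | nil => rwa [List.append_nil] at hp
  | append_singleton t n ih =>
    exact ih (T.tree (s ++ t) n p (by rwa [List.append_assoc]))

end Pool.Agent.Mil
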