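import Pool.Agent.Lib.Mil.W.Def

/-!
# A continuous choice of a subtree

`v u x` is a node above `u`, `n u m x ≥ m` is a number; both are locally constant in `x`. PROOF. For fixed `x` define
`N u : ℕ → ℕ` by `N u 0 = n u 0 x`, `N u (k + 1) = n u (N u k + 1) x`; it is strictly monotone and `N u k` is of the form
`n u m x`. Define `e x s = s.foldl (fun u k => v (u ++ [N u k]) x) (v [] x)`, so that `e x (s ++ [k]) = v (e x s ++ [N (e x s) k]) x`
(`List.foldl_append`). `Stp (e x)`: `j = N (e x s)`; `u <+: v u x`. LOCALLY CONSTANT: `x ↦ N u k` (with `x`) is locally constant for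
fixed `u`, `k` by induction on `k` (`LC.local`); `x ↦ e x s` by induction on `s` from the right: `LC.local` twice (first `e x s` has a
value `u`, then `N u k` has a value `i`, then `v (u ++ [i])` is locally constant).
-/

set_option autoImplicit false
set_option linter.unusedSectionVars false
set_option linter.unusedVariables false

namespace Pool.Agent.Mil

variable {I : Type}

/-- the chosen successors of the node `u` -/
private def rdb_N (n : List ℕ → ℕ → Pt I → ℕ) (x : Pt I) (u : List ℕ) : ℕ → ℕ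
  | 0 => n u 0 x
  | k + 1 => n u (rdb_N n x u k + 1) x

private theorem rdb_mono {n : List ℕ → ℕ → Pt I → ℕ} (hn : ∀ u m x, m ≤ n u m x) (x : Pt I)
    (u : List ℕ) : StrictMono (rdb_N n x u) :=
  strictMono_nat_of_lt_succ fun k => Nat.lt_of_succ_le (hn u (rdb_N n x u k + 1) x)

private theorem rdb_ex (n : List ℕ → ℕ → Pt I → ℕ) (x : Pt I) (u : List ℕ) (k : ℕ) :
    ∃ m, rdb_N n x u k = n u m x := by
  cases k with
  | zero => exact ⟨0, rfl⟩
  | succ k => exact ⟨rdb_N n x u k + 1, rfl⟩

private theorem rdb_lc {C : Set I} {n : List ℕ → ℕ → Pt I → ℕ} (hn' : ∀ u m, LC C (n u m))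
    (u : List ℕ) (k : ℕ) : LC C (fun x => rdb_N n x u k) := by
  induction k with
  | zero => exact hn' u 0
  | succ k ih => exact LC.local ih (fun i x => n u (i + 1) x) (fun i => hn' u (i + 1)) fun x => rfl

theorem exists_e {C : Set I} (v : List ℕ → Pt I → List ℕ) (hv : ∀ u x, u <+: v u x) (hv' : ∀ u, LC C (v u))
    (n : List ℕ → ℕ → Pt I → ℕ) (hn : ∀ u m x, m ≤ n u m x) (hn' : ∀ u m, LC C (n u m)) :
    ∃ e : Pt I → List ℕ → List ℕ, (∀ x, Stp (e x)) ∧ (∀ s, LC C (fun x => e x s)) ∧ (∀ x, e x [] = v [] x) ∧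
      ∀ x s k, ∃ m, e x (s ++ [k]) = v (e x s ++ [n (e x s) m x]) x := by
  obtain ⟨e, he⟩ : ∃ e : Pt I → List ℕ → List ℕ, ∀ x s,
      e x s = s.foldl (fun u k => v (u ++ [rdb_N n x u k]) x) (v [] x) := ⟨_, fun _ _ => rfl⟩
  have h0 : ∀ x, e x [] = v [] x := fun x => he x []
  have h1 : ∀ x s k, e x (s ++ [k]) = v (e x s ++ [rdb_N n x (e x s) k]) x := by
    intro x s k
    rw [he, he, List.foldl_append]
    rfl
  refine ⟨e, fun x s => ⟨rdb_N n x (e x s), rdb_mono hn x _, fun k => ?_⟩, fun s => ?_, h0,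
    fun x s k => ?_⟩
  · rw [h1]
    exact hv _ _
  · induction s using List.reverseRecOn with
    | nil =>
      have h2 : (fun x => e x []) = v [] := funext h0
      rw [h2]
      exact hv' []
    | append_singleton s k ih =>
      refine LC.local ih (fun u x => v (u ++ [rdb_N n x u k]) x) (fun u => ?_) fun x => h1 x s k
      exact LC.local (rdb_lc hn' u k) (fun i x => v (u ++ [i]) x) (fun i => hv' (u ++ [i])) fun x => rfl
  · obtain ⟨m, hm⟩ := rdb_ex n x (e x s) k
    exact ⟨m, by rw [h1, hm]⟩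

end Pool.Agent.Mil
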