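import Pool.Agent.Lib.Mil.W.RdA
import Pool.Agent.Lib.Mil.W.RdB
import Pool.Agent.Lib.Mil.W.TrB

/-!
# Continuous reading of a name of a superperfect tree

PROOF. Let `dθ = d c (φ * θ)`. SETS: for `u`: `Ea u = {θ | (∀ p ≤ dθ, p ∉ T.t u) ∨ ∃ w : {w // u <+: w}, dθ ∈ Spc T w}`; for `u, m`:
`Eb u m = {θ | (∀ p ≤ dθ, p ∉ Spc T u) ∨ ∃ n : {n // n ≥ m}, dθ ∈ T.t (u ++ [n])}`. Both are `DO (Set.Iio c)` by `do_dec`
(`Spc.down`, `T.down`; `T.spl` gives for `p ∈ T.t u` some `q ≤ p` and `w`, `u <+: w`, `q ∈ Spc T w`; for `p ∈ Spc T u` the definition gives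
`r ≤ p`, `n ≥ m`). They are countably many (`List ℕ ⊕ (List ℕ × ℕ)` is countable: enumerate it by `ℕ`), so `K.prop` gives `χ`
(`= φ` there), `C` countable, `C ⊆ Set.Iio c`, with `Loc C E χ` for all of them. `exists_par` gives for every `E` a partition `π_E` of `Pt I` into
cylinders with supports in `C` and `χ * (π_E x).k ∈ E` (the property is closed upwards because `E` is open: if `Ext w.u v.u` then
`v.k = w.k * (w.dif v).k`; apply `DO.opn` with `χ * w.k`, which is `In (Iio c)` if `sp w.u ⊆ Iio c`; use the property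
`sp w.u ⊆ Iio c → χ * w.k ∈ E`, note `sp w.u ⊆ sp v.u`). `π_E` is locally constant (`Par.lc`). Let `v u x = w` if `d (φ * χ * (π x).k)
∈ Spc T w` for some `w` with `u <+: w` (chosen, depending only on `u` and `π x`; `π` for `Ea u`), otherwise `v u x = u`; `n u m x` similarly from
`Eb u m`, otherwise `m`. `exists_e` gives `e`.
CLAIM: for all `y` and `t` there is `w : Cfg I` with `sp w.u ⊆ Iio c`, `y ∈ Cy w.u`, `d c (φ * χ * w.k) ∈ Spc T (e y t)`. Induction on `t` from the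
right. `t = []`: `w = π y` for `Ea []`: the first alternative is impossible since `T.root`; so the chosen node is `e y [] = v [] y`.
Step: let `w` be for `t`, `u = e y t`; let `e y (t ++ [k]) = v (u ++ [i]) y`, `i = n u m y`. Let `w'` be the cylinder of `y` for `Eb u m`:
the first alternative is impossible because `w.sup w'` is a common extension (`Cfg.mem_sup`, `ext_sup_left/right`, `Cfg.k_mul_dif`,
`hg.mono`), so `d c (φ * χ * w'.k) ∈ T.t (u ++ [i])`. Let `w''` be the cylinder of `y` for `Ea (u ++ [i])`: the first alternative is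
impossible by the same argument, so `d c (φ * χ * w''.k) ∈ Spc T (v (u ++ [i]) y)`.
CONCLUSION: let `s ∈ Tr (e (θ.mp x))` for all `x`. `T.reg`: let `q ≤ d c (φ * χ * θ)`. `Good.below` gives `α` with
`d c (φ * χ * θ * α) ≤ q`. Let `z` be any point, `y = (θ * α).mp z`, `s <+: e y t`, `w` from the CLAIM. `exists_into` for `θ * α` gives
`v'`, `γ` with `θ * α * v'.k = w.k * γ`. Then `r = d c (φ * χ * θ * α * v'.k) ≤ q` and `r = d c (φ * χ * w.k * γ) ≤ d c (φ * χ * w.k)`, so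
`r ∈ Spc T (e y t)`, `r ∈ T.t (e y t)` (`Spc.mem`), `r ∈ T.t s` (`MNm.pfx`).
-/

set_option autoImplicit false
set_option linter.unusedSectionVars false
set_option linter.unusedVariables false

namespace Pool.Agent.Mil

variable {I : Type} [LinearOrder I] [WellFoundedLT I] {P : Itm I} {d : ∀ a, Gam I → P.P a}

private theorem RdC_par {A C : Set I} (hC : C.Countable) (hCA : C ⊆ A) {E : Set (Gam I)} (hE : DO A E)
    {χ : Gam I} (hχ : χ.In A) (h : Loc C E χ) :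
    ∃ π : Pt I → Cfg I, Par C π ∧ ∀ x, χ * (π x).k ∈ E := by
  obtain ⟨π, h1, h2⟩ := exists_par hC (P := fun w => sp w.u ⊆ A → χ * w.k ∈ E)
    (fun w v hwv hw hv => by
      have h1 : sp w.u ⊆ A := hwv.sp.trans hv
      rw [← Cfg.k_mul_dif hwv, ← mul_assoc]
      exact hE.opn _ _ (hχ.mul (Cfg.k_in h1)) (Cfg.k_in ((sp_dif _ _).trans hv)) (hw h1))
    (fun x => by
      obtain ⟨w, h1, h2, h3⟩ := h x
      exact ⟨w, h1, h2, fun _ => h3⟩)
  exact ⟨π, h1, fun x => h2 x ((h1.sup x).trans hCA)⟩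

private theorem RdC_mono {c : I} (hg : Good P d c) (φ χ : Gam I) {w z : Cfg I} (h : Ext w.u z.u) :
    d c (φ * (χ * z.k)) ≤ d c (φ * (χ * w.k)) := by
  have h1 : φ * (χ * z.k) = (φ * (χ * w.k)) * (w.dif z).k := by
    rw [← Cfg.k_mul_dif h]; simp only [mul_assoc]
  rw [h1]
  exact hg.mono _ _

/-- the set of the conditions which decide a node with infinitely many successors above `u` -/
private def RdC_Ea (d : ∀ a, Gam I → P.P a) {c : I} (T : MNm (P.P c)) (φ : Gam I) (u : List ℕ) :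
    Set (Gam I) :=
  {θ : Gam I | (∀ p ≤ d c (φ * θ), p ∉ T.t u) ∨ ∃ w : {w : List ℕ // u <+: w}, d c (φ * θ) ∈ Spc T w.1}

/-- the set of the conditions which decide a successor `≥ m` of `u` -/
private def RdC_Eb (d : ∀ a, Gam I → P.P a) {c : I} (T : MNm (P.P c)) (φ : Gam I) (u : List ℕ) (m : ℕ) :
    Set (Gam I) :=
  {θ : Gam I | (∀ p ≤ d c (φ * θ), p ∉ Spc T u) ∨ ∃ n : {n : ℕ // m ≤ n}, d c (φ * θ) ∈ T.t (u ++ [n.1])}

private theorem RdC_doa (hd : IsD P d) {c : I} (hg : Good P d c) (T : MNm (P.P c)) (φ : Gam I) (u : List ℕ) :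
    DO (Set.Iio c) (RdC_Ea d T φ u) := by
  refine do_dec hd hg φ (Y := T.t u) (ι := {w : List ℕ // u <+: w}) (X := fun w => Spc T w.1) ?_ ?_
  · intro i p q hqp hp
    exact Spc.down T i.1 hqp hp
  · intro p hp
    obtain ⟨q, hq, w, hw, h⟩ := T.spl u p hp
    exact ⟨q, hq, ⟨w, hw⟩, h⟩

private theorem RdC_dob (hd : IsD P d) {c : I} (hg : Good P d c) (T : MNm (P.P c)) (φ : Gam I) (u : List ℕ)
    (m : ℕ) : DO (Set.Iio c) (RdC_Eb d T φ u m) := by
  refine do_dec hd hg φ (Y := Spc T u) (ι := {n : ℕ // m ≤ n}) (X := fun n => T.t (u ++ [n.1])) ?_ ?_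
  · intro i p q hqp hp
    exact T.down _ p q hqp hp
  · intro p hp
    obtain ⟨r, hr, n, hn, h⟩ := hp m p le_rfl
    exact ⟨r, hr, ⟨n, hn⟩, h⟩

/-- the two kinds of sets -/
private def RdC_E (d : ∀ a, Gam I → P.P a) {c : I} (T : MNm (P.P c)) (φ : Gam I) :
    List ℕ ⊕ (List ℕ × ℕ) → Set (Gam I)
  | Sum.inl u => RdC_Ea d T φ u
  | Sum.inr p => RdC_Eb d T φ p.1 p.2

private theorem RdC_do (hd : IsD P d) {c : I} (hg : Good P d c) (T : MNm (P.P c)) (φ : Gam I) :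
    ∀ j, DO (Set.Iio c) (RdC_E d T φ j)
  | Sum.inl u => RdC_doa hd hg T φ u
  | Sum.inr p => RdC_dob hd hg T φ p.1 p.2

open Classical in
/-- the chosen node above `u` -/
private noncomputable def RdC_V (d : ∀ a, Gam I → P.P a) {c : I} (T : MNm (P.P c)) (φ χ : Gam I) (u : List ℕ)
    (z : Cfg I) : List ℕ :=
  if h : ∃ w, u <+: w ∧ d c (φ * (χ * z.k)) ∈ Spc T w then h.choose else u

open Classical in
/-- the chosen successor of `u` -/
private noncomputable def RdC_N (d : ∀ a, Gam I → P.P a) {c : I} (T : MNm (P.P c)) (φ χ : Gam I) (u : List ℕ)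
    (m : ℕ) (z : Cfg I) : ℕ :=
  if h : ∃ n, m ≤ n ∧ d c (φ * (χ * z.k)) ∈ T.t (u ++ [n]) then h.choose else m

private theorem RdC_V_pfx {c : I} (T : MNm (P.P c)) (φ χ : Gam I) (u : List ℕ) (z : Cfg I) :
    u <+: RdC_V d T φ χ u z := by
  unfold RdC_V
  split_ifs with h
  · exact h.choose_spec.1
  · exact List.prefix_rfl

private theorem RdC_V_mem {c : I} (T : MNm (P.P c)) (φ χ : Gam I) (u : List ℕ) (z : Cfg I)
    (h : ∃ w, u <+: w ∧ d c (φ * (χ * z.k)) ∈ Spc T w) :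
    d c (φ * (χ * z.k)) ∈ Spc T (RdC_V d T φ χ u z) := by
  unfold RdC_V
  rw [dif_pos h]
  exact h.choose_spec.2

private theorem RdC_N_le {c : I} (T : MNm (P.P c)) (φ χ : Gam I) (u : List ℕ) (m : ℕ) (z : Cfg I) :
    m ≤ RdC_N d T φ χ u m z := by
  unfold RdC_N
  split_ifs with h
  · exact h.choose_spec.1
  · exact le_rfl

private theorem RdC_N_mem {c : I} (T : MNm (P.P c)) (φ χ : Gam I) (u : List ℕ) (m : ℕ) (z : Cfg I)
    (h : ∃ n, m ≤ n ∧ d c (φ * (χ * z.k)) ∈ T.t (u ++ [n])) :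
    d c (φ * (χ * z.k)) ∈ T.t (u ++ [RdC_N d T φ χ u m z]) := by
  unfold RdC_N
  rw [dif_pos h]
  exact h.choose_spec.2

/-- the step to a node with infinitely many successors -/
private theorem RdC_vstep {c : I} (hg : Good P d c) (T : MNm (P.P c)) (φ χ : Gam I) (u : List ℕ) {w z : Cfg I}
    {y : Pt I} (hw : y ∈ Cy w.u) (hz : y ∈ Cy z.u) (h : d c (φ * (χ * w.k)) ∈ T.t u)
    (hE : χ * z.k ∈ RdC_Ea d T φ u) : d c (φ * (χ * z.k)) ∈ Spc T (RdC_V d T φ χ u z) := by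
  rcases hE with h1 | ⟨w', h1⟩
  · exact absurd (T.down u _ _ (RdC_mono hg φ χ (Cfg.ext_sup_left hw hz)) h)
      (h1 _ (RdC_mono hg φ χ (Cfg.ext_sup_right hw hz)))
  · exact RdC_V_mem T φ χ u z ⟨w'.1, w'.2, h1⟩

/-- the step to a successor -/
private theorem RdC_nstep {c : I} (hg : Good P d c) (T : MNm (P.P c)) (φ χ : Gam I) (u : List ℕ) (m : ℕ)
    {w z : Cfg I} {y : Pt I} (hw : y ∈ Cy w.u) (hz : y ∈ Cy z.u) (h : d c (φ * (χ * w.k)) ∈ Spc T u)
    (hE : χ * z.k ∈ RdC_Eb d T φ u m) : d c (φ * (χ * z.k)) ∈ T.t (u ++ [RdC_N d T φ χ u m z]) := by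
  rcases hE with h1 | ⟨n, h1⟩
  · exact absurd (Spc.down T u (RdC_mono hg φ χ (Cfg.ext_sup_left hw hz)) h)
      (h1 _ (RdC_mono hg φ χ (Cfg.ext_sup_right hw hz)))
  · exact RdC_N_mem T φ χ u m z ⟨n.1, n.2, h1⟩

theorem reading (K : Kit I) (hd : IsD P d) {c : I} (hg : Good P d c) (T : MNm (P.P c)) (φ : Gam I)
    (F : Finset I) (hF : (↑F : Set I) ⊆ Set.Iio c) (N : ℕ) :
    ∃ χ : Gam I, χ.In (Set.Iio c) ∧ K.Fx F N χ ∧ ∃ (e : Pt I → List ℕ → List ℕ) (C : Set I), C.Countable ∧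
      C ⊆ Set.Iio c ∧ (∀ x, Stp (e x)) ∧ (∀ s, LC C (fun x => e x s)) ∧
      ∀ (θ : Gam I) (s : List ℕ), (∀ x, s ∈ Tr (e (θ.mp x))) → d c (φ * χ * θ) ∈ T.t s := by
  obtain ⟨f, hf⟩ := exists_surjective_nat (List ℕ ⊕ (List ℕ × ℕ))
  obtain ⟨χ, hχ, hFx, C, hC, hCA, hloc⟩ := K.prop (Set.Iio c) (isLowerSet_Iio c) F hF N
    (fun i => RdC_E d T φ (f i)) (fun i => RdC_do hd hg T φ (f i))
  have hloc' : ∀ j, Loc C (RdC_E d T φ j) χ := by
    intro j
    obtain ⟨i, rfl⟩ := hf j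
    exact hloc i
  have hpar : ∀ j, ∃ π : Pt I → Cfg I, Par C π ∧ ∀ x, χ * (π x).k ∈ RdC_E d T φ j := fun j =>
    RdC_par hC hCA (RdC_do hd hg T φ j) hχ (hloc' j)
  choose π hπ hπE using hpar
  obtain ⟨e, he1, he2, he3, he4⟩ := exists_e (C := C)
    (fun u x => RdC_V d T φ χ u (π (Sum.inl u) x)) (fun u x => RdC_V_pfx T φ χ u _)
    (fun u => (hπ (Sum.inl u)).lc.comp₁ (RdC_V d T φ χ u))
    (fun u m x => RdC_N d T φ χ u m (π (Sum.inr (u, m)) x)) (fun u m x => RdC_N_le T φ χ u m _)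
    (fun u m => (hπ (Sum.inr (u, m))).lc.comp₁ (RdC_N d T φ χ u m))
  have claim : ∀ (y : Pt I) (t : List ℕ), ∃ w : Cfg I, sp w.u ⊆ Set.Iio c ∧ y ∈ Cy w.u ∧
      d c (φ * (χ * w.k)) ∈ Spc T (e y t) := by
    intro y t
    induction t using List.reverseRecOn with
    | nil =>
      refine ⟨π (Sum.inl []) y, ((hπ _).sup y).trans hCA, (hπ _).mem y, ?_⟩
      rw [he3 y]
      exact RdC_vstep hg T φ χ [] (w := Cfg.nil) (y := y) (fun a => pf_nil _) ((hπ _).mem y) (T.root _)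
        (hπE (Sum.inl []) y)
    | append_singleton t k ih =>
      obtain ⟨w, hw1, hw2, hw3⟩ := ih
      obtain ⟨m, hm⟩ := he4 y t k
      rw [hm]
      have h1 := RdC_nstep hg T φ χ (e y t) m hw2 ((hπ (Sum.inr (e y t, m))).mem y) hw3
        (hπE (Sum.inr (e y t, m)) y)
      refine ⟨_, ((hπ (Sum.inl (e y t ++ [RdC_N d T φ χ (e y t) m (π (Sum.inr (e y t, m)) y)]))).sup y).trans hCA,
        (hπ _).mem y, ?_⟩
      exact RdC_vstep hg T φ χ _ ((hπ (Sum.inr (e y t, m))).mem y) ((hπ _).mem y) h1 (hπE (Sum.inl _) y)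
  refine ⟨χ, hχ, hFx, e, C, hC, hCA, he1, he2, fun θ s hs => ?_⟩
  apply T.reg
  intro q hq
  obtain ⟨α, hα, hαq⟩ := Good.below hd hg (φ * χ * θ) q hq
  obtain ⟨t, ht⟩ := hs (α.mp (fun _ _ => 0))
  obtain ⟨w, hw1, hw2, hw3⟩ := claim (θ.mp (α.mp (fun _ _ => 0))) t
  obtain ⟨v', hv1, hv2, γ, hγ, -⟩ := exists_into (θ * α) w (x := fun _ _ => 0)
    (by rw [Gam.mul_mp]; exact hw2) (isLowerSet_Iio c) hw1
  refine ⟨d c (φ * χ * θ * α * v'.k), (hg.mono _ _).trans hαq, ?_⟩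
  have h1 : φ * χ * θ * α * v'.k = φ * (χ * w.k) * γ := by
    have h2 : φ * χ * θ * α * v'.k = φ * χ * ((θ * α) * v'.k) := by simp only [mul_assoc]
    rw [h2, hγ]; simp only [mul_assoc]
  apply MNm.pfx T ht
  apply Spc.mem
  refine Spc.down T _ ?_ hw3
  rw [h1]
  exact hg.mono _ _

end Pool.Agent.Mil
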