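import Pool.Agent.Lib.Mil.W.RdC
import Pool.Agent.Lib.Mil.W.Nok
import Pool.Agent.Lib.Mil.One

/-!
# The density theorem, successor step

PROOF. Let `b ≤ a`. If `b = a`: `χ = 1` (`K.triv`), `P.r_self`. Otherwise `b = ↑b'` for some `b' : I` with `b' ∈ lo a`, so `b' ≤ c`. `hw`
for `P.r a c _ p` (`P.r_r`) gives `χ₁`, `χ₁.In (lo c)`, `K.Fx F N χ₁`, `d c (φ * χ₁) ≤ P.r a c _ p`. `reading` for `φ * χ₁` and
`T = P.co a c hc p` gives `χ₂`, `e`, `C`. Let `τ : Gam I` have the coordinate `c` equal to `e` and the other coordinates trivial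
(support `C ∪ {c}`; `C ∩ Set.Iio c = C`), and `χ = χ₁ * χ₂ * τ`. `K.Fx F N χ`: `K.mul`, and `K.triv` for `τ` (`F ⊆ lo b ⊆ Iio c`).
`χ.In (lo a)` since `c ∈ lo a`. Let `ψ = φ * χ`. By `IsD.congr`, `d c ψ = d c (φ * χ₁ * χ₂) ≤ d c (φ * χ₁) ≤ P.r a c _ p` (`hg.mono`).
`P.le_suc` (with `IsD.r`): let `p' ≤ d c ψ`, `p' ∈ (P.co a c hc (d a ψ)).t s = nt P c (d c) ψ s` (`hd.co`, `Good.nm_t`). To show
`p' ∈ T.t s` use `T.reg`: let `q ≤ p'`; by `nt` there is `r ≤ q`; the first alternative is impossible (`r ≤ d c ψ`); so there is `χ'`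
with `s ∈ Tr (ψ.e c (χ'.mp x))` for all `x` and `r ≤ d c (ψ * χ')`. Since `φ * χ₁ * χ₂` is trivial at `c` (it is `In (Set.Iio c)`),
`ψ.e c y s = e y s`. So `d c (φ * χ₁ * χ₂ * χ') ∈ T.t s` by `reading`, and `d c (ψ * χ') = d c (φ * χ₁ * χ₂ * χ')` by `IsD.congr`
(`τ` is trivial below `c`, `τ.mp y` agrees with `y` below `c`). `T.down`.
-/

set_option autoImplicit false
set_option linter.unusedSectionVars false
set_option linter.unusedVariables false

namespace Pool.Agent.Mil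

variable {I : Type} [LinearOrder I] [WellFoundedLT I] {P : Itm I} {d : ∀ a, Gam I → P.P a}

theorem ww_suc (K : Kit I) (hd : IsD P d) {a : WithTop I} {c : I} (hc : (c : WithTop I) < a)
    (ha : ∀ c' ∈ lo a, c' ≤ c) (hg : Good P d (c : WithTop I)) (hw : WW K P d (c : WithTop I)) : WW K P d a := by
  intro b h φ hφ p hp F N hF
  by_cases hba : b = a
  · subst hba
    refine ⟨1, Gam.in_one _, K.triv _ _ _ fun _ _ _ _ => rfl, ?_⟩
    rw [mul_one]
    rwa [P.r_self] at hp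
  have hlt : b < a := lt_of_le_of_ne h hba
  have hbc : b ≤ (c : WithTop I) := by
    induction b using WithTop.recTopCoe with
    | top => exact absurd hlt not_top_lt
    | coe b' => exact WithTop.coe_le_coe.2 (ha b' hlt)
  have hbc' : lo b ⊆ Set.Iio c := by
    rw [← lo_coe]
    exact lo_mono hbc
  have hφc : φ.In (Set.Iio c) := hφ.mono hbc'
  obtain ⟨χ₁, h1, h1F, h1d⟩ := hw b hbc φ hφ (P.r a c hc.le p) (by rwa [P.r_r]) F N hF
  rw [lo_coe] at h1
  obtain ⟨χ₂, h2, h2F, e, C, hCc, hC, hest, helc, hread⟩ :=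
    reading K hd hg (P.co a c hc p) (φ * χ₁) F (hF.trans hbc') N
  obtain ⟨τ, -, hτc, hτ⟩ := exists_upd (φ := (1 : Gam I)) (C := insert c C) (hCc.insert c)
    (Gam.Spt.one.mono (Set.empty_subset _)) (Set.mem_insert c C) e hest
    (fun s => (helc s).mono fun x hx => ⟨Set.mem_insert_of_mem c hx, hC hx⟩)
  have hτe : ∀ a' ≠ c, ∀ x s, τ.e a' x s = s := fun a' ha' x s => hτ a' ha' x s
  have hτI : τ.In {c} := fun a' ha' x s => hτe a' ha' x s
  have hτm : ∀ x : Pt I, ∀ b' < c, τ.mp x b' = x b' := fun x b' hb' => hτI.mp_eq (ne_of_lt hb') x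
  have hΦI : (φ * χ₁ * χ₂).In (Set.Iio c) := (hφc.mul h1).mul h2
  have hψe : ∀ c' < c, ∀ x s, (φ * (χ₁ * χ₂ * τ)).e c' x s = (φ * χ₁ * χ₂).e c' x s := by
    intro c' hc' x s
    rw [← mul_assoc, ← mul_assoc, Gam.mul_e (φ * χ₁ * χ₂) τ, hτe c' (ne_of_lt hc')]
    exact (φ * χ₁ * χ₂).congr c' (fun b' hb' => hτm x b' (hb'.trans hc')) s
  have hψc : ∀ x s, (φ * (χ₁ * χ₂ * τ)).e c x s = e x s := by
    intro x s
    rw [← mul_assoc, ← mul_assoc, Gam.mul_e (φ * χ₁ * χ₂) τ, hΦI c (lt_irrefl c)]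
    exact hτc x s
  have hdc : d c (φ * (χ₁ * χ₂ * τ)) = d c (φ * χ₁ * χ₂) :=
    hd.congr c fun c' hc' x s => hψe c' (by rwa [lo_coe] at hc') x s
  refine ⟨χ₁ * χ₂ * τ, ?_, ?_, ?_⟩
  · have hca : Set.Iio c ⊆ lo a := by
      rw [← lo_coe]
      exact lo_mono hc.le
    refine ((h1.mono hca).mul (h2.mono hca)).mul fun a' ha' x s => hτe a' ?_ x s
    rintro rfl
    exact ha' hc
  · refine K.mul _ _ _ _ (K.mul _ _ _ _ h1F h2F) (K.triv _ _ _ fun a' ha' x s => hτe a' ?_ x s)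
    exact ne_of_lt (hbc' (hF ha'))
  · refine P.le_suc hc ha ?_ ?_
    · rw [hd.r hc.le, hdc]
      exact (hg.mono _ _).trans h1d
    · intro s p' hp' hs
      rw [hd.r hc.le] at hp'
      rw [hd.co a c hc, hg.nm_t hd] at hs
      refine (P.co a c hc p).reg s p' fun q hq => ?_
      obtain ⟨r, hr, hr'⟩ := hs q hq
      refine ⟨r, hr, ?_⟩
      rcases hr' with hr' | ⟨χ', hx, hr'⟩
      · exact absurd ((hr.trans hq).trans hp') (hr' r le_rfl)
      · have h3 : d c (φ * (χ₁ * χ₂ * τ) * χ') = d c (φ * χ₁ * χ₂ * χ') :=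
          hd.congr c fun c' hc' x s => by
            rw [Gam.mul_e, Gam.mul_e (φ * χ₁ * χ₂)]
            exact hψe c' (by rwa [lo_coe] at hc') _ _
        rw [h3] at hr'
        refine (P.co a c hc p).down s _ r hr' (hread χ' s fun x => ?_)
        have h4 : (φ * (χ₁ * χ₂ * τ)).e c (χ'.mp x) = e (χ'.mp x) := funext fun t => hψc _ t
        rw [← h4]
        exact hx x

end Pool.Agent.Mil
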