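import Pool.Agent.Lib.Mil.W.Def

/-!
# The tree of a map: finite search and splitting nodes

`Tr g = {s | ∃ t, s <+: g t}`. PROOF. `Tr.nil`, `Tr.pfx`, `Tr.comp`: immediate. `bx_fin`: finitely many lists of bounded length with
bounded entries (`List.finite_length_lt`, or the image of a finite set of functions). `Stp.of_step`: `g t0 <+: g t'` gives
`t0 <+: t'` (`Stp.prefix_iff`); `t' = t0` is impossible (lengths); so `t' = t0 ++ k' :: _`, and `g t0 ++ [j k'] <+: g t'`; both are
initial segments of `g t'` of the same length, so `j k = j k'`, `k = k'`.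
`Tr.iff_bx`: let `s <+: g t` with `t` of minimal length. We show that all proper initial segments `t0` of `t`, `t = t0 ++ k :: _`,
satisfy `g t0 ++ [j k] <+: s`: `g t0 ++ [j k] <+: g t` (`Stp`, `Stp.mono`) and `¬ s <+: g t0`, both `s` and `g t0 ++ [j k]` are
initial segments of `g t`, so they are comparable, and `s <+: g t0 ++ [j k]` would give `s = g t0 ++ [j k]` (since not
`s <+: g t0`). So `j k ∈ s`, `k ≤ j k ≤ s.sum` (`StrictMono.id_le`, `List.le_sum_of_mem` or similar), and
`t0.length < s.length` (`Stp.length_le'`), which gives `t.length ≤ s.length`.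
`Tr.range_iff`. If `g t = u` then `u ++ [j m] <+: g (t ++ [m])`, `j m ≥ m`. Conversely let `u` have infinitely many successors in
`Tr g`, and suppose `u` is not a value of `g`. Let `u <+: g t` (`u ++ [n] ∈ Tr g`) with `t` of minimal length; `u ≠ g t`. CLAIM: if
`u ++ [n] <+: g t'` then `u ++ [n] <+: g t` (so `n = (g t)[u.length]` is unique, a contradiction). If `t = []`: `g [] <+: g t'`, so
`u ++ [n]` and `g []` are comparable, and `u.length < (g []).length`. If `t = t0 ++ [k]`: `¬ u <+: g t0`, `g t0 ++ [j k] <+: g t`, so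
`g t0 ++ [j k] <+: u <+: g t'` and `t <+: t'` by `Stp.of_step`; so `g t <+: g t'` and again `u ++ [n]`, `g t` are comparable, and
`u.length < (g t).length`.
-/

set_option autoImplicit false
set_option linter.unusedSectionVars false
set_option linter.unusedVariables false

namespace Pool.Agent.Mil

variable {g g' : List ℕ → List ℕ}

/-- lists of length at most that of `s`, with entries at most `s.sum` -/
def bx (s : List ℕ) : Set (List ℕ) := {t | t.length ≤ s.length ∧ ∀ k ∈ t, k ≤ s.sum}

theorem bx_fin (s : List ℕ) : (bx s).Finite := by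
  have h1 : ({l : List (Fin (s.sum + 1)) | l.length ≤ s.length}).Finite :=
    List.finite_length_le _ _
  refine (h1.image (List.map Fin.val)).subset ?_
  rintro t ⟨h2, h3⟩
  refine ⟨t.map fun k => Fin.ofNat (s.sum + 1) k, ?_, ?_⟩
  · show (t.map _).length ≤ s.length
    rw [List.length_map]
    exact h2
  · rw [List.map_map]
    conv_rhs => rw [← List.map_id t]
    refine List.map_congr_left fun k hk => ?_
    show k % (s.sum + 1) = k
    exact Nat.mod_eq_of_lt (Nat.lt_succ_of_le (h3 k hk))

theorem Tr.nil (g : List ℕ → List ℕ) : [] ∈ Tr g := ⟨[], List.nil_prefix⟩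

theorem Tr.pfx {s t : List ℕ} (h : t ∈ Tr g) (hst : s <+: t) : s ∈ Tr g := by
  obtain ⟨u, hu⟩ := h
  exact ⟨u, hst.trans hu⟩

theorem Tr.mem_self (g : List ℕ → List ℕ) (s : List ℕ) : g s ∈ Tr g := ⟨s, List.prefix_rfl⟩

theorem Tr.comp (g g' : List ℕ → List ℕ) : Tr (fun s => g (g' s)) ⊆ Tr g := by
  rintro s ⟨t, ht⟩
  exact ⟨g' t, ht⟩

theorem Stp.of_step (h : Stp g) {t0 t' : List ℕ} {j : ℕ → ℕ} (hj : StrictMono j)
    (h1 : ∀ k, g t0 ++ [j k] <+: g (t0 ++ [k])) {k : ℕ} (hk : g t0 ++ [j k] <+: g t') : t0 ++ [k] <+: t' := by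
  have h2 : t0 <+: t' := h.prefix_iff.1 ((List.prefix_append _ _).trans hk)
  obtain ⟨r, rfl⟩ := h2
  cases r with
  | nil =>
    rw [List.append_nil] at hk
    have := hk.length_le
    simp at this
  | cons k' r =>
    have h3 : g t0 ++ [j k'] <+: g (t0 ++ k' :: r) :=
      (h1 k').trans (h.mono ⟨r, by simp⟩)
    have h4 : g t0 ++ [j k] = g t0 ++ [j k'] := by
      rcases List.prefix_or_prefix_of_prefix hk h3 with h5 | h5
      · exact h5.eq_of_length (by simp)
      · exact (h5.eq_of_length (by simp)).symm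
    have h5 : k = k' := hj.injective (by simpa using h4)
    rw [h5]
    exact ⟨r, by simp⟩

private theorem exists_min {s : List ℕ} (h : ∃ t, s <+: g t) :
    ∃ t, s <+: g t ∧ ∀ t', s <+: g t' → t.length ≤ t'.length := by
  classical
  obtain ⟨t, ht⟩ := h
  have h : ∃ n, ∃ t, s <+: g t ∧ t.length = n := ⟨t.length, t, ht, rfl⟩
  obtain ⟨t0, h0, h0'⟩ := Nat.find_spec h
  exact ⟨t0, h0, fun t' ht' => by rw [h0']; exact Nat.find_min' h ⟨t', ht', rfl⟩⟩

/-- a step below a minimal value above `s` is an initial segment of `s` -/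
private theorem step_pfx (h : Stp g) {s t0 t : List ℕ} {k : ℕ} {j : ℕ → ℕ}
    (h1 : ∀ k, g t0 ++ [j k] <+: g (t0 ++ [k])) (hs : s <+: g t) (ht : t0 ++ [k] <+: t)
    (hno : ¬ s <+: g t0) : g t0 ++ [j k] <+: s := by
  have h2 : g t0 ++ [j k] <+: g t := (h1 k).trans (h.mono ht)
  rcases List.prefix_or_prefix_of_prefix h2 hs with h3 | h3
  · exact h3
  · rcases List.prefix_concat_iff.1 h3 with h4 | h4
    · rw [h4]
    · exact absurd h4 hno

theorem Tr.iff_bx (h : Stp g) {s : List ℕ} : s ∈ Tr g ↔ ∃ t ∈ bx s, s <+: g t := by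
  constructor
  · intro hs
    obtain ⟨t, ht, hmin⟩ := exists_min hs
    have key : ∀ t0 k r, t = t0 ++ k :: r → ∃ n, k ≤ n ∧ g t0 ++ [n] <+: s := by
      rintro t0 k r rfl
      obtain ⟨j, hj, h1⟩ := h t0
      refine ⟨j k, hj.le_apply, step_pfx h h1 ht ⟨r, by simp⟩ fun hno => ?_⟩
      have := hmin t0 hno
      simp at this
    refine ⟨t, ⟨?_, fun k hk => ?_⟩, ht⟩
    · rcases List.eq_nil_or_concat t with rfl | ⟨t0, k, rfl⟩
      · simp
      · obtain ⟨n, -, h2⟩ := key t0 k [] (by simp)
        have h3 := h2.length_le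
        have h4 := h.length_le' t0
        simp only [List.length_append, List.length_singleton, List.concat_eq_append] at h3 ⊢
        omega
    · obtain ⟨t0, r, rfl⟩ := List.append_of_mem hk
      obtain ⟨n, h1, h2⟩ := key t0 k r rfl
      obtain ⟨w, rfl⟩ := h2
      refine h1.trans ?_
      simp only [List.sum_append, List.sum_cons, List.sum_nil]
      omega
  · rintro ⟨t, -, ht⟩
    exact ⟨t, ht⟩

/-- the values of `g` are the nodes with infinitely many immediate successors -/
theorem Tr.range_iff (h : Stp g) {u : List ℕ} : (∃ t, g t = u) ↔ ∀ m, ∃ n ≥ m, u ++ [n] ∈ Tr g := by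
  constructor
  · rintro ⟨t, rfl⟩ m
    obtain ⟨j, hj, h1⟩ := h t
    exact ⟨j m, hj.le_apply, t ++ [m], h1 m⟩
  · intro hu
    by_contra hne
    push Not at hne
    obtain ⟨n0, -, t0, ht0⟩ := hu 0
    obtain ⟨t, ht, hmin⟩ := exists_min (g := g) ⟨t0, (List.prefix_append u [n0]).trans ht0⟩
    have claim : ∀ n t', u ++ [n] <+: g t' → u ++ [n] <+: g t := by
      intro n t' hn
      have hu' : u <+: g t' := (List.prefix_append u [n]).trans hn
      have htt : t <+: t' := by
        rcases List.eq_nil_or_concat t with rfl | ⟨t1, k, rfl⟩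
        · exact List.nil_prefix
        · rw [List.concat_eq_append] at ht hmin ⊢
          obtain ⟨j, hj, h1⟩ := h t1
          refine h.of_step hj h1 ((step_pfx h h1 ht List.prefix_rfl fun hno => ?_).trans hu')
          have := hmin t1 hno
          simp at this
      rcases List.prefix_or_prefix_of_prefix hn (h.mono htt) with h3 | h3
      · exact h3
      · rcases List.prefix_concat_iff.1 h3 with h4 | h4
        · rw [h4]
        · exact absurd (h4.eq_of_length (le_antisymm h4.length_le ht.length_le)) (hne t)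
    obtain ⟨n1, -, t1, h1⟩ := hu 0
    obtain ⟨n2, hn2, t2, h2⟩ := hu (n1 + 1)
    have h3 := claim n1 t1 h1
    have h4 := claim n2 t2 h2
    have h5 : u ++ [n1] = u ++ [n2] := by
      rcases List.prefix_or_prefix_of_prefix h3 h4 with h5 | h5
      · exact h5.eq_of_length (by simp)
      · exact (h5.eq_of_length (by simp)).symm
    have h6 : n1 = n2 := by simpa using h5
    omega

end Pool.Agent.Mil
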